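import Pool.Agent.Helper647.FU.Defs

set_option autoImplicit false

open Set Cardinal Topology

namespace Pool.Agent.Helper647.FU.J10

theorem good_closure {T X : Type} (W : Type) [TopologicalSpace T] {Z : Set T} {e : T → X → ℝ}
    {Pos : Set T → Prop} (hP : PosSys Z e Pos) :
    ∃ S0 : List (U T X W) → Set (U T X W), (∀ l, (S0 l).Countable) ∧
      ∀ M, ClosedUnder S0 M → Good Z e Pos M := by
  classical
  have henc : ∀ E E' : Set T, enc E = enc E' → E = E' := by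
    intro E E' h
    ext t
    have h1 : ∀ F : Set T, t ∈ F ↔ [t] ∈ enc F := by
      intro F
      constructor
      · intro ht
        exact ⟨t, ht, rfl⟩
      · rintro ⟨t', ht', h'⟩
        rw [List.singleton_inj] at h'
        rw [h']
        exact ht'
    rw [h1 E, h1 E', h]
  have hg : ∀ E : Set T, ∃ G : Set T, E ⊆ Z → ¬ Pos E →
      G ⊆ Z ∧ OClosed G ∧ Pos G ∧ Disjoint G E := by
    intro E
    by_cases h : E ⊆ Z ∧ ¬ Pos E
    · obtain ⟨G, hG⟩ := hP.p1 E h.1 h.2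
      exact ⟨G, fun _ _ => hG⟩
    · exact ⟨∅, fun h1 h2 => absurd ⟨h1, h2⟩ h⟩
  choose g hg using hg
  have hz : ∀ L : List (Set T), ∃ z : T, (∀ E ∈ L, E ⊆ Z ∧ Pos E) →
      z ∈ Z ∧ ∀ E ∈ L, z ∈ ocl E := by
    intro L
    by_cases h : ∀ E ∈ L, E ⊆ Z ∧ Pos E
    · obtain ⟨z, hz⟩ := hP.p2 L h
      exact ⟨z, fun _ => hz⟩
    · obtain ⟨z, -⟩ := hP.p2 [] (by simp)
      exact ⟨z, fun h' => absurd h' h⟩
  choose zz hzz using hz
  have hC : ∀ (z : T) (E : Set T), ∃ C : Set T, C.Countable ∧ (z ∈ ocl E → C ⊆ E ∧ z ∈ closure C) := by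
    intro z E
    by_cases h : z ∈ ocl E
    · obtain ⟨C, hC1, hC2, hC3⟩ := h
      exact ⟨C, hC2, fun _ => ⟨hC1, hC3⟩⟩
    · exact ⟨∅, Set.countable_empty, fun h' => absurd h' h⟩
  choose CC hCC1 hCC2 using hC
  -- the pieces
  obtain ⟨Sa, hSa⟩ : ∃ Sa : List (U T X W) → Set (U T X W), ∀ l, Sa l =
      {u | ∃ (f : ℕ → U T X W) (n : ℕ), l = [U.p f] ∧ u = f n} := ⟨_, fun _ => rfl⟩
  obtain ⟨Sb, hSb⟩ : ∃ Sb : List (U T X W) → Set (U T X W), ∀ l, Sb l =
      {u | ∃ (A : Set (List T)) (t : T), l = [U.s A, U.z t] ∧ u = U.s {l' | t :: l' ∈ A}} :=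
    ⟨_, fun _ => rfl⟩
  obtain ⟨Sc, hSc⟩ : ∃ Sc : List (U T X W) → Set (U T X W), ∀ l, Sc l =
      {u | ∃ (A : Set (List T)) (n : ℕ), l = [U.s A] ∧
        u = U.s (enc {t ∈ Z | Large Z Pos n {l | t :: l ∈ A}})} := ⟨_, fun _ => rfl⟩
  obtain ⟨Sd, hSd⟩ : ∃ Sd : List (U T X W) → Set (U T X W), ∀ l, Sd l =
      {u | ∃ E : Set T, l = [U.s (enc E)] ∧ u = U.s (enc (g E))} := ⟨_, fun _ => rfl⟩
  obtain ⟨Se, hSe⟩ : ∃ Se : List (U T X W) → Set (U T X W), ∀ l, Se l =
      {u | ∃ L : List (Set T), l = L.map (fun E => U.s (enc E)) ∧ u = U.z (zz L)} :=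
    ⟨_, fun _ => rfl⟩
  obtain ⟨Sf, hSf⟩ : ∃ Sf : List (U T X W) → Set (U T X W), ∀ l, Sf l =
      {u | ∃ (z : T) (E : Set T), l = [U.z z, U.s (enc E)] ∧ u ∈ U.z '' (CC z E)} :=
    ⟨_, fun _ => rfl⟩
  obtain ⟨Sg, hSg⟩ : ∃ Sg : List (U T X W) → Set (U T X W), ∀ l, Sg l =
      {u | ∃ x : X, l = [U.x x] ∧ u = U.s (enc {z ∈ Z | e z x = 0})} := ⟨_, fun _ => rfl⟩
  have ca : ∀ l, (Sa l).Countable := by
    intro l
    rw [hSa]
    by_cases h : ∃ f : ℕ → U T X W, l = [U.p f]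
    · obtain ⟨f, hf⟩ := h
      refine (Set.countable_range f).mono ?_
      rintro u ⟨f', n, h1, h2⟩
      rw [hf] at h1
      simp only [List.cons.injEq, U.p.injEq, and_true] at h1
      exact ⟨n, by rw [h2, h1]⟩
    · convert Set.countable_empty
      ext u
      simp only [Set.mem_setOf_eq, Set.mem_empty_iff_false, iff_false]
      rintro ⟨f, n, h1, h2⟩
      exact h ⟨f, h1⟩
  have cb : ∀ l, (Sb l).Countable := by
    intro l
    rw [hSb]
    apply Set.Subsingleton.countable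
    rintro u ⟨A, t, h1, h2⟩ u' ⟨A', t', h1', h2'⟩
    rw [h1] at h1'
    simp only [List.cons.injEq, U.s.injEq, U.z.injEq, and_true] at h1'
    rw [h2, h2', h1'.1, h1'.2]
  have cc : ∀ l, (Sc l).Countable := by
    intro l
    rw [hSc]
    by_cases h : ∃ A : Set (List T), l = [U.s A]
    · obtain ⟨A, hA⟩ := h
      refine (Set.countable_range (fun n : ℕ =>
        (U.s (enc {t ∈ Z | Large Z Pos n {l | t :: l ∈ A}}) : U T X W))).mono ?_
      rintro u ⟨A', n, h1, h2⟩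
      rw [hA] at h1
      simp only [List.cons.injEq, U.s.injEq, and_true] at h1
      exact ⟨n, by rw [h2, h1]⟩
    · convert Set.countable_empty
      ext u
      simp only [Set.mem_setOf_eq, Set.mem_empty_iff_false, iff_false]
      rintro ⟨A, n, h1, h2⟩
      exact h ⟨A, h1⟩
  have cd : ∀ l, (Sd l).Countable := by
    intro l
    rw [hSd]
    apply Set.Subsingleton.countable
    rintro u ⟨E, h1, h2⟩ u' ⟨E', h1', h2'⟩
    rw [h1] at h1'
    simp only [List.cons.injEq, U.s.injEq, and_true] at h1'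
    rw [h2, h2', henc _ _ h1']
  have ce : ∀ l, (Se l).Countable := by
    intro l
    rw [hSe]
    apply Set.Subsingleton.countable
    rintro u ⟨L, h1, h2⟩ u' ⟨L', h1', h2'⟩
    rw [h1] at h1'
    have hinj : Function.Injective (fun E : Set T => (U.s (enc E) : U T X W)) := by
      intro E E' h
      simp only [U.s.injEq] at h
      exact henc _ _ h
    rw [h2, h2', List.map_injective_iff.mpr hinj h1']
  have cf : ∀ l, (Sf l).Countable := by
    intro l
    rw [hSf]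
    by_cases h : ∃ (z : T) (E : Set T), l = [U.z z, U.s (enc E)]
    · obtain ⟨z, E, hzE⟩ := h
      refine ((hCC1 z E).image U.z).mono ?_
      rintro u ⟨z', E', h1, h2⟩
      rw [hzE] at h1
      simp only [List.cons.injEq, U.s.injEq, U.z.injEq, and_true] at h1
      rw [h1.1, henc _ _ h1.2]
      exact h2
    · convert Set.countable_empty
      ext u
      simp only [Set.mem_setOf_eq, Set.mem_empty_iff_false, iff_false]
      rintro ⟨z, E, h1, h2⟩
      exact h ⟨z, E, h1⟩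
  have cg : ∀ l, (Sg l).Countable := by
    intro l
    rw [hSg]
    apply Set.Subsingleton.countable
    rintro u ⟨x, h1, h2⟩ u' ⟨x', h1', h2'⟩
    rw [h1] at h1'
    simp only [List.cons.injEq, U.x.injEq, and_true] at h1'
    rw [h2, h2', h1']
  refine ⟨fun l => Sa l ∪ (Sb l ∪ (Sc l ∪ (Sd l ∪ (Se l ∪ (Sf l ∪ Sg l))))), ?_, ?_⟩
  · intro l
    exact (ca l).union ((cb l).union ((cc l).union ((cd l).union ((ce l).union
      ((cf l).union (cg l))))))
  · intro M hM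
    have hMa : ∀ l : List (U T X W), (∀ a ∈ l, a ∈ M) → Sa l ⊆ M := fun l hl u hu =>
      hM l hl (Or.inl hu)
    have hMb : ∀ l : List (U T X W), (∀ a ∈ l, a ∈ M) → Sb l ⊆ M := fun l hl u hu =>
      hM l hl (Or.inr (Or.inl hu))
    have hMc : ∀ l : List (U T X W), (∀ a ∈ l, a ∈ M) → Sc l ⊆ M := fun l hl u hu =>
      hM l hl (Or.inr (Or.inr (Or.inl hu)))
    have hMd : ∀ l : List (U T X W), (∀ a ∈ l, a ∈ M) → Sd l ⊆ M := fun l hl u hu =>
      hM l hl (Or.inr (Or.inr (Or.inr (Or.inl hu))))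
    have hMe : ∀ l : List (U T X W), (∀ a ∈ l, a ∈ M) → Se l ⊆ M := fun l hl u hu =>
      hM l hl (Or.inr (Or.inr (Or.inr (Or.inr (Or.inl hu)))))
    have hMf : ∀ l : List (U T X W), (∀ a ∈ l, a ∈ M) → Sf l ⊆ M := fun l hl u hu =>
      hM l hl (Or.inr (Or.inr (Or.inr (Or.inr (Or.inr (Or.inl hu))))))
    have hMg : ∀ l : List (U T X W), (∀ a ∈ l, a ∈ M) → Sg l ⊆ M := fun l hl u hu =>
      hM l hl (Or.inr (Or.inr (Or.inr (Or.inr (Or.inr (Or.inr hu))))))
    refine ⟨?_, ?_, ?_, ?_, ?_, ?_, ?_⟩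
    · intro f hf n
      apply hMa [U.p f] (by simpa using hf)
      rw [hSa]
      exact ⟨f, n, rfl, rfl⟩
    · intro A t hA ht
      apply hMb [U.s A, U.z t] (by simp [hA, ht])
      rw [hSb]
      exact ⟨A, t, rfl, rfl⟩
    · intro A n hA
      apply hMc [U.s A] (by simpa using hA)
      rw [hSc]
      exact ⟨A, n, rfl, rfl⟩
    · intro E hE hEM hnp
      obtain ⟨h1, h2, h3, h4⟩ := hg E hE hnp
      refine ⟨g E, h1, h2, h3, h4, ?_⟩
      apply hMd [U.s (enc E)] (by simpa using hEM)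
      rw [hSd]
      exact ⟨E, rfl, rfl⟩
    · intro L hL
      obtain ⟨h1, h2⟩ := hzz L (fun E hE => ⟨(hL E hE).1, (hL E hE).2.1⟩)
      refine ⟨zz L, h1, h2, ?_⟩
      apply hMe (L.map (fun E => U.s (enc E))) (by
        intro a ha
        rw [List.mem_map] at ha
        obtain ⟨E, hE, rfl⟩ := ha
        exact (hL E hE).2.2)
      rw [hSe]
      exact ⟨L, rfl, rfl⟩
    · intro z E hzM hEM hzE
      obtain ⟨h1, h2⟩ := hCC2 z E hzE
      refine ⟨CC z E, h1, h2, ?_⟩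
      intro c hc
      apply hMf [U.z z, U.s (enc E)] (by simp [hzM, hEM])
      rw [hSf]
      exact ⟨z, E, rfl, Set.mem_image_of_mem _ hc⟩
    · intro x hx
      apply hMg [U.x x] (by simpa using hx)
      rw [hSg]
      exact ⟨x, rfl, rfl⟩

end Pool.Agent.Helper647.FU.J10
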