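import Pool.Agent.Helper647.FU.Defs

set_option autoImplicit false

open Set Cardinal Topology

namespace Pool.Agent.Helper647.FU.J11

theorem Phi_nonempty {T X W : Type} [TopologicalSpace T] [CompactSpace T] {Z : Set T}
    (hZ : OClosed Z) {e : T → X → ℝ} {Pos : Set T → Prop} {M : Set (U T X W)}
    (hM : Good Z e Pos M) (hc : M.Countable) : (Phi Z Pos M).Nonempty := by
  classical
  set K0 : Set T := closure ({t : T | (U.z t : U T X W) ∈ M} ∩ Z) with hK0
  have hcomp : IsCompact K0 := isClosed_closure.isCompact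
  let I : Type := {E : Set T // E ⊆ Z ∧ (U.s (enc E) : U T X W) ∈ M ∧ Pos E}
  let K : I → Set T := fun E => closure (E.1 ∩ {t : T | (U.z t : U T X W) ∈ M})
  have hne : (K0 ∩ ⋂ i, K i).Nonempty := by
    refine hcomp.inter_iInter_nonempty K (fun i => isClosed_closure) ?_
    intro u
    obtain ⟨z, hzZ, hzo, hzM⟩ := hM.e' (u.toList.map (fun E : I => E.1)) (by
      intro E hE
      rw [List.mem_map] at hE
      obtain ⟨F, _, rfl⟩ := hE
      exact ⟨F.2.1, F.2.2.2, F.2.2.1⟩)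
    refine ⟨z, subset_closure ⟨hzM, hzZ⟩, ?_⟩
    rw [Set.mem_iInter₂]
    intro E hE
    have h1 := hzo E.1 (List.mem_map.2 ⟨E, Finset.mem_toList.2 hE, rfl⟩)
    obtain ⟨C, hCE, hzC, hCM⟩ := hM.f z E.1 hzM E.2.2.1 h1
    have hsub : C ⊆ E.1 ∩ {t : T | (U.z t : U T X W) ∈ M} := fun c hc => ⟨hCE hc, hCM c hc⟩
    exact closure_mono hsub hzC
  obtain ⟨z, hz0, hzI⟩ := hne
  refine ⟨z, ?_, ?_⟩
  · refine hZ ({t : T | (U.z t : U T X W) ∈ M} ∩ Z) Set.inter_subset_right ?_ hz0
    refine Set.Countable.mono Set.inter_subset_left ?_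
    have h1 : {t : T | (U.z t : U T X W) ∈ M} = (fun t : T => (U.z t : U T X W)) ⁻¹' M := rfl
    rw [h1]
    refine hc.preimage_of_injOn ?_
    intro a _ b _ hab
    exact U.z.inj hab
  · intro E hE hEM hEP
    have h1 := Set.mem_iInter.1 hzI (Subtype.mk E (And.intro hE (And.intro hEM hEP)))
    exact h1

end Pool.Agent.Helper647.FU.J11
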