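import Pool.Agent.Helper647.FU.Defs

set_option autoImplicit false

open Set Cardinal Topology

namespace Pool.Agent.Helper647.FU.J13

theorem zf_rec {W : Type} [LinearOrder W] [WellFoundedLT W]
    (hc : ∀ a : W, (Iio a).Countable) {P : Type*} (H : Set P) (hH : ¬ H.Countable)
    (good : P → P → Prop) (h2 : ∀ p ∈ H, {q ∈ H | ¬ good p q}.Countable) :
    ∃ p : W → P, (∀ i, p i ∈ H) ∧ ∀ i j, j < i → good (p j) (p i) := by
  classical
  have hne : H.Nonempty := by
    by_contra h
    rw [Set.not_nonempty_iff_eq_empty] at h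
    rw [h] at hH
    exact hH Set.countable_empty
  obtain ⟨d, hd⟩ := hne
  let F : ∀ i : W, (∀ j : W, j < i → P) → P := fun i ih =>
    if h : ∃ q, q ∈ H ∧ ∀ j (hj : j < i), good (ih j hj) q then h.choose else d
  let p : W → P := (wellFounded_lt (α := W)).fix F
  have hp : ∀ i, p i = F i (fun j _ => p j) := fun i => (wellFounded_lt (α := W)).fix_eq F i
  have key : ∀ i, p i ∈ H ∧ ∀ j, j < i → good (p j) (p i) := by
    intro i
    induction i using WellFoundedLT.induction with
    | ind i ih =>
      have hex : ∃ q, q ∈ H ∧ ∀ j (_ : j < i), good (p j) q := by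
        by_contra hcon
        push Not at hcon
        apply hH
        have hsub : H ⊆ ⋃ j ∈ Iio i, {q ∈ H | ¬ good (p j) q} := by
          intro q hq
          obtain ⟨j, hj, hj2⟩ := hcon q hq
          exact Set.mem_biUnion (show j ∈ Iio i from hj) ⟨hq, hj2⟩
        exact ((hc i).biUnion fun j hj => h2 _ (ih j hj).1).mono hsub
      have e : p i = hex.choose := by
        rw [hp i]
        show (if h : ∃ q, q ∈ H ∧ ∀ j (hj : j < i), good (p j) q then h.choose else d) = _
        rw [dif_pos hex]
      rw [e]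
      exact hex.choose_spec
  exact ⟨p, fun i => (key i).1, fun i j hj => (key i).2 j hj⟩

theorem zfc_final {W : Type} [LinearOrder W] [WellFoundedLT W]
    (hc : ∀ a : W, (Iio a).Countable) (hu : ¬ Countable W)
    {T : Type*} [TopologicalSpace T] [CompactSpace T] {X : Type*} [TopologicalSpace X] [T1Space X]
    (hX : ∀ D : Set X, IsClosed D → DiscreteTopology D → D.Countable)
    (e : T → X → ℝ) (he : ∀ x, Continuous fun t => e t x) (he' : ∀ t, Continuous (e t))
    (H : Set (T × X)) (hH : ¬ H.Countable) (h1 : ∀ p ∈ H, 1 ≤ |e p.1 p.2|)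
    (h2 : ∀ p ∈ H, {q ∈ H | ¬ (2 / 3 < |e p.1 q.2| ∧ e q.1 p.2 = 0)}.Countable) : False := by
  classical
  obtain ⟨p, hpH, hp⟩ := zf_rec hc H hH (fun p q => 2 / 3 < |e p.1 q.2| ∧ e q.1 p.2 = 0) h2
  have hinj : Function.Injective (fun i => (p i).2) := by
    intro i j hij
    by_contra hne
    have key : ∀ i j, j < i → (p i).2 ≠ (p j).2 := by
      intro i j hj h
      have h3 := (hp i j hj).2
      have h4 := h1 (p i) (hpH i)
      rw [h, h3, abs_zero] at h4
      linarith
    rcases lt_or_gt_of_ne hne with h | h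
    · exact key j i h hij.symm
    · exact key i j h hij
  have hlf : LocallyFinite (fun i : W => ({(p i).2} : Set X)) := by
    intro y
    by_contra hcon
    push Not at hcon
    have hcon' : ∀ U ∈ 𝓝 y, {i | (p i).2 ∈ U}.Infinite := by
      intro U hU
      have h3 := hcon U hU
      have h4 : {i | (({(p i).2} : Set X) ∩ U).Nonempty} = {i | (p i).2 ∈ U} := by
        ext i
        simp
      rw [h4] at h3
      exact h3
    have hG : (Filter.cofinite ⊓ Filter.comap (fun i => (p i).2) (𝓝 y)).NeBot := by
      rw [Filter.inf_neBot_iff]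
      intro A hA B hB
      obtain ⟨U, hU, hUB⟩ := Filter.mem_comap.1 hB
      have h3 : ((fun i => (p i).2) ⁻¹' U \ Aᶜ).Nonempty := by
        have h4 : ({i | (p i).2 ∈ U} \ Aᶜ).Infinite := (hcon' U hU).sdiff (Filter.mem_cofinite.1 hA)
        exact h4.nonempty
      obtain ⟨i, hi1, hi2⟩ := h3
      exact ⟨i, not_not.1 hi2, hUB hi1⟩
    let F : Ultrafilter W := Ultrafilter.of (Filter.cofinite ⊓ Filter.comap (fun i => (p i).2) (𝓝 y))
    have hF : (F : Filter W) ≤ Filter.cofinite ⊓ Filter.comap (fun i => (p i).2) (𝓝 y) :=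
      Ultrafilter.of_le _
    have hFc : (F : Filter W) ≤ Filter.cofinite := hF.trans inf_le_left
    have hFx : Filter.Tendsto (fun i => (p i).2) F (𝓝 y) :=
      Filter.tendsto_iff_comap.2 (hF.trans inf_le_right)
    have hC : {i | Ioi i ∈ F} ∈ F := by
      by_contra hCn
      have hC' : {i | Ioi i ∈ F}ᶜ ∈ F := Ultrafilter.compl_mem_iff_notMem.2 hCn
      have hne : ({i | Ioi i ∈ F}ᶜ : Set W).Nonempty := Ultrafilter.nonempty_of_mem hC'
      obtain ⟨i0, hi0, hmin⟩ := (wellFounded_lt (α := W)).has_min _ hne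
      have h3 : Iic i0 ∈ F := by
        have : (Ioi i0)ᶜ ∈ F := Ultrafilter.compl_mem_iff_notMem.2 hi0
        rwa [Set.compl_Ioi] at this
      have h4 : ({i0} : Set W) ∈ F := by
        refine Filter.mem_of_superset (Filter.inter_mem h3 hC') ?_
        rintro i ⟨hi1, hi2⟩
        exact le_antisymm hi1 (not_lt.1 (hmin i hi2))
      have h5 : ({i0} : Set W)ᶜ ∈ F := hFc (Set.finite_singleton i0).compl_mem_cofinite
      exact (Ultrafilter.compl_mem_iff_notMem.1 h5) h4
    set u : T := (F.map fun i => (p i).1).lim with hu'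
    have hz : Filter.Tendsto (fun i => (p i).1) F (𝓝 u) :=
      (F.map fun i => (p i).1).le_nhds_lim
    have a1 : ∀ i, Ioi i ∈ F → 2 / 3 ≤ |e (p i).1 y| := by
      intro i hi
      have h3 : Filter.Tendsto (fun j => |e (p i).1 (p j).2|) F (𝓝 |e (p i).1 y|) :=
        (((he' (p i).1).tendsto y).comp hFx).abs
      refine ge_of_tendsto h3 ?_
      filter_upwards [hi] with j hj
      exact (hp j i hj).1.le
    have a2 : ∀ i, Ioi i ∈ F → e u (p i).2 = 0 := by
      intro i hi
      have h3 : Filter.Tendsto (fun j => e (p j).1 (p i).2) F (𝓝 (e u (p i).2)) :=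
        ((he (p i).2).tendsto u).comp hz
      have h4 : Filter.Tendsto (fun j => e (p j).1 (p i).2) F (𝓝 0) := by
        refine Filter.Tendsto.congr' ?_ tendsto_const_nhds
        filter_upwards [hi] with j hj
        exact (hp j i hj).2.symm
      exact tendsto_nhds_unique h3 h4
    have b1 : e u y = 0 := by
      have h3 : Filter.Tendsto (fun j => e u (p j).2) F (𝓝 (e u y)) :=
        ((he' u).tendsto y).comp hFx
      have h4 : Filter.Tendsto (fun j => e u (p j).2) F (𝓝 0) := by
        refine Filter.Tendsto.congr' ?_ tendsto_const_nhds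
        filter_upwards [hC] with j hj
        exact (a2 j hj).symm
      exact tendsto_nhds_unique h3 h4
    have b2 : 2 / 3 ≤ |e u y| := by
      have h3 : Filter.Tendsto (fun j => |e (p j).1 y|) F (𝓝 |e u y|) :=
        (((he y).tendsto u).comp hz).abs
      refine ge_of_tendsto h3 ?_
      filter_upwards [hC] with j hj
      exact a1 j hj
    rw [b1, abs_zero] at b2
    linarith
  have hcl : ∀ I : Set W, IsClosed ((fun i => (p i).2) '' I) := by
    intro I
    have h3 := (hlf.comp_injective (Subtype.val_injective (p := fun i => i ∈ I))).isClosed_iUnion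
      (fun i => isClosed_singleton)
    have h4 : (⋃ i : I, (({(p (i : W)).2} : Set X))) = (fun i => (p i).2) '' I := by
      ext y
      simp only [Set.mem_iUnion, Set.mem_singleton_iff, Set.mem_image, Subtype.exists]
      constructor
      · rintro ⟨i, hi, rfl⟩
        exact ⟨i, hi, rfl⟩
      · rintro ⟨i, hi, rfl⟩
        exact ⟨i, hi, rfl⟩
    rw [← h4]
    exact h3
  have hcount := hX (Set.range fun i => (p i).2) (by
    rw [← Set.image_univ]
    exact hcl _) (by
    rw [discreteTopology_iff_forall_isClosed]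
    intro s
    have h3 := hcl ((fun i => (p i).2) ⁻¹' (Subtype.val '' s))
    have h4 : s = Subtype.val ⁻¹' ((fun i => (p i).2) '' ((fun i => (p i).2) ⁻¹'
        (Subtype.val '' s))) := by
      ext ⟨y, i, hi⟩
      constructor
      · intro hy
        exact ⟨i, ⟨_, hy, hi.symm⟩, hi⟩
      · rintro ⟨j, ⟨y', hy', h5⟩, h6⟩
        have h7 : y' = ⟨y, i, hi⟩ := Subtype.ext (h5.trans h6)
        rw [← h7]
        exact hy'
    rw [h4]
    exact h3.preimage continuous_subtype_val)
  apply hu
  have h5 : Countable (Set.range fun i => (p i).2) := hcount.to_subtype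
  exact Function.Injective.countable (f := fun i : W => (⟨(p i).2, i, rfl⟩ : Set.range fun i => (p i).2))
    (fun i j h => hinj (congrArg Subtype.val h))

end Pool.Agent.Helper647.FU.J13
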