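import Pool.Agent.Helper647.FU.Defs

set_option autoImplicit false

open Set Cardinal Topology

namespace Pool.Agent.Helper647.FU.J14

theorem tightness_aux1 {T : Type} [TopologicalSpace T] (A : Set T) : OClosed (ocl A) := by
  intro C hC hCc z hz
  have h : ∀ c : C, ∃ B : Set T, B ⊆ A ∧ B.Countable ∧ (c : T) ∈ closure B := fun c => hC c.2
  choose B hBA hBc hcB using h
  have : Countable C := hCc.to_subtype
  refine ⟨⋃ c : C, B c, iUnion_subset hBA, countable_iUnion hBc, ?_⟩
  have h1 : C ⊆ closure (⋃ c : C, B c) := by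
    intro c hc
    exact closure_mono (subset_iUnion B ⟨c, hc⟩) (hcB ⟨c, hc⟩)
  exact closure_minimal h1 isClosed_closure hz

theorem tightness_aux2 {T : Type} [TopologicalSpace T] (A : Set T) : A ⊆ ocl A := by
  intro a ha
  exact ⟨{a}, singleton_subset_iff.mpr ha, countable_singleton a, subset_closure (mem_singleton a)⟩

theorem tightness_aux3 {X : Type} [TopologicalSpace X] [T1Space X]
    (hX : ∀ D : Set X, IsClosed D → DiscreteTopology D → D.Countable)
    (D : Set (X × ℕ)) (hD : IsClosed D) (hDd : DiscreteTopology D) : D.Countable := by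
  have h1 : ∀ n : ℕ, {x : X | (x, n) ∈ D}.Countable := by
    intro n
    have hc : Continuous fun x : X => (x, n) := by fun_prop
    refine hX _ (hD.preimage hc) ?_
    let φ : {x : X | (x, n) ∈ D} → D := fun x => ⟨(x.1, n), x.2⟩
    have hφ : Continuous φ := by
      apply Continuous.subtype_mk
      exact hc.comp continuous_subtype_val
    have hinj : Function.Injective φ := by
      intro x y hxy
      have h2 := congrArg (fun z : D => z.1.1) hxy
      exact Subtype.ext h2
    exact DiscreteTopology.of_continuous_injective hφ hinj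
  have h2 : D ⊆ ⋃ n : ℕ, (fun x : X => (x, n)) '' {x : X | (x, n) ∈ D} := by
    rintro ⟨x, n⟩ hx
    exact mem_iUnion.mpr ⟨n, x, hx, rfl⟩
  exact (countable_iUnion fun n => (h1 n).image _).mono h2

theorem tightness {X : Type} [TopologicalSpace X] [T1Space X]
    (hX : ∀ D : Set X, IsClosed D → DiscreteTopology D → D.Countable)
    (core : ∀ {T Y : Type} [TopologicalSpace T] [CompactSpace T] (Z : Set T) (w : T)
      (e : T → Y → ℝ), OClosed Z → w ∈ closure Z → (∀ y, Continuous fun t => e t y) →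
      (∀ y, e w y = 0) → (∀ z ∈ Z, ∃ y, 1 ≤ |e z y|) →
      ∃ H : Set (T × Y), ¬ H.Countable ∧ (∀ p ∈ H, 1 ≤ |e p.1 p.2|) ∧
        ∀ p ∈ H, {q ∈ H | ¬ (2 / 3 < |e p.1 q.2| ∧ e q.1 p.2 = 0)}.Countable)
    (fin : ∀ {T Y : Type} [TopologicalSpace T] [CompactSpace T] [TopologicalSpace Y] [T1Space Y],
      (∀ D : Set Y, IsClosed D → DiscreteTopology D → D.Countable) →
      ∀ (e : T → Y → ℝ), (∀ y, Continuous fun t => e t y) → (∀ t, Continuous (e t)) →
      ∀ (H : Set (T × Y)), ¬ H.Countable → (∀ p ∈ H, 1 ≤ |e p.1 p.2|) →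
        (∀ p ∈ H, {q ∈ H | ¬ (2 / 3 < |e p.1 q.2| ∧ e q.1 p.2 = 0)}.Countable) → False)
    (K : Set (X → ℝ)) (hK : IsCompact K) (hKc : ∀ f ∈ K, Continuous f) : CTight K := by
  intro A w hw
  by_contra hcon
  push Not at hcon
  haveI : CompactSpace K := isCompact_iff_compactSpace.mp hK
  let e : K → X × ℕ → ℝ := fun t p => (p.2 : ℝ) * (t.1 p.1 - w.1 p.1)
  have hw2 : w ∈ closure (ocl A) := closure_mono (tightness_aux2 A) hw
  have he1 : ∀ y, Continuous fun t => e t y := by
    intro y
    have h1 : Continuous fun t : K => t.1 y.1 := (continuous_apply y.1).comp continuous_subtype_val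
    exact continuous_const.mul (h1.sub continuous_const)
  have he2 : ∀ t, Continuous (e t) := by
    intro t
    have h1 : Continuous fun p : X × ℕ => (p.2 : ℝ) :=
      (continuous_of_discreteTopology (f := fun n : ℕ => (n : ℝ))).comp continuous_snd
    exact h1.mul (((hKc _ t.2).comp continuous_fst).sub ((hKc _ w.2).comp continuous_fst))
  have he3 : ∀ y, e w y = 0 := by
    intro y
    simp [e]
  have he4 : ∀ z ∈ ocl A, ∃ y, 1 ≤ |e z y| := by
    intro z hz
    have hzw : z ≠ w := by
      rintro rfl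
      obtain ⟨C, hCA, hCc, hC⟩ := hz
      exact hcon C hCA hCc hC
    have h1 : ∃ x, z.1 x ≠ w.1 x := by
      by_contra h2
      push Not at h2
      exact hzw (Subtype.ext (funext h2))
    obtain ⟨x, hx⟩ := h1
    have h2 : 0 < |z.1 x - w.1 x| := abs_pos.mpr (sub_ne_zero.mpr hx)
    obtain ⟨n, hn⟩ := exists_nat_ge (1 / |z.1 x - w.1 x|)
    refine ⟨(x, n), ?_⟩
    change 1 ≤ |(n : ℝ) * (z.1 x - w.1 x)|
    rw [abs_mul, Nat.abs_cast]
    rwa [div_le_iff₀ h2] at hn
  obtain ⟨H, hH1, hH2, hH3⟩ := core (ocl A) w e (tightness_aux1 A) hw2 he1 he3 he4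
  exact fin (fun D hD hDd => tightness_aux3 hX D hD hDd) e he1 he2 H hH1 hH2 hH3

end Pool.Agent.Helper647.FU.J14
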