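import Pool.Agent.Helper647.FU.Defs

set_option autoImplicit false

open Set Cardinal Topology

namespace Pool.Agent.Helper647.FU.J7

namespace PB

/-- the dense set of `P` attached to a set of conditions below `p0` -/
def Dt {P : Type} [PartialOrder P] (p0 : P) (D : Set {q : P // q ≤ p0}) : Set P :=
  {p | (∃ h : p ≤ p0, (⟨p, h⟩ : {q : P // q ≤ p0}) ∈ D) ∨ ¬ Compat p p0}

/-- closure operations on one element -/
def gE {P : Type} [PartialOrder P] (p0 : P) {A : Type} :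
    ({q : P // q ≤ p0} ⊕ Set {q : P // q ≤ p0} ⊕ (P ⊕ Set P ⊕ A)) →
      Set ({q : P // q ≤ p0} ⊕ Set {q : P // q ≤ p0} ⊕ (P ⊕ Set P ⊕ A))
  | Sum.inl q => {Sum.inr (Sum.inr (Sum.inl q.1))}
  | Sum.inr (Sum.inl D) => {Sum.inr (Sum.inr (Sum.inr (Sum.inl (Dt p0 D))))}
  | Sum.inr (Sum.inr (Sum.inl p)) => {x | ∃ h : p ≤ p0, x = Sum.inl ⟨p, h⟩}
  | Sum.inr (Sum.inr (Sum.inr _)) => ∅

theorem gE_countable {P : Type} [PartialOrder P] (p0 : P) {A : Type}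
    (x : {q : P // q ≤ p0} ⊕ Set {q : P // q ≤ p0} ⊕ (P ⊕ Set P ⊕ A)) :
    (gE p0 x).Countable := by
  rcases x with q | D | p | y
  · exact countable_singleton _
  · exact countable_singleton _
  · refine Set.Subsingleton.countable ?_
    rintro a ⟨h, rfl⟩ b ⟨h', rfl⟩
    rfl
  · exact countable_empty

/-- the old part -/
def toB {P : Type} [PartialOrder P] (p0 : P) {A : Type} :
    ({q : P // q ≤ p0} ⊕ Set {q : P // q ≤ p0} ⊕ (P ⊕ Set P ⊕ A)) → Option (P ⊕ Set P ⊕ A)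
  | Sum.inr (Sum.inr b) => some b
  | _ => none

theorem proper_below {P : Type} [PartialOrder P] (hP : Proper P) (p0 : P) :
    Proper {q : P // q ≤ p0} := by
  obtain ⟨A, F, hF, hN⟩ := hP
  refine ⟨P ⊕ Set P ⊕ A, fun l => (⋃ x ∈ {x | x ∈ l}, gE p0 x) ∪
    (fun b => Sum.inr (Sum.inr b)) '' F (l.filterMap (toB p0)), ?_, ?_⟩
  · intro l
    refine Set.Countable.union ?_ ((hF _).image _)
    exact Set.Countable.biUnion (List.finite_toSet l).countable (fun x _ => gE_countable p0 x)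
  · intro N1 hc hcl q0 hq0
    have hg : ∀ x ∈ N1, gE p0 x ⊆ N1 := by
      intro x hx y hy
      apply hcl [x] (by simpa using hx)
      left
      simpa using hy
    have hcN : {b : P ⊕ Set P ⊕ A | (Sum.inr (Sum.inr b) :
        {q : P // q ≤ p0} ⊕ Set {q : P // q ≤ p0} ⊕ (P ⊕ Set P ⊕ A)) ∈ N1}.Countable := by
      refine hc.preimage (f := fun b : P ⊕ Set P ⊕ A => (Sum.inr (Sum.inr b) :
        {q : P // q ≤ p0} ⊕ Set {q : P // q ≤ p0} ⊕ (P ⊕ Set P ⊕ A))) ?_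
      intro a b h
      simpa using h
    have hclN : ClosedUnder F {b : P ⊕ Set P ⊕ A | (Sum.inr (Sum.inr b) :
        {q : P // q ≤ p0} ⊕ Set {q : P // q ≤ p0} ⊕ (P ⊕ Set P ⊕ A)) ∈ N1} := by
      intro l hl y hy
      have h1 : (l.map (fun b => (Sum.inr (Sum.inr b) :
          {q : P // q ≤ p0} ⊕ Set {q : P // q ≤ p0} ⊕ (P ⊕ Set P ⊕ A)))).filterMap (toB p0)
          = l := by
        rw [List.filterMap_map]
        have : (toB p0 ∘ fun b => (Sum.inr (Sum.inr b) :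
          {q : P // q ≤ p0} ⊕ Set {q : P // q ≤ p0} ⊕ (P ⊕ Set P ⊕ A))) = some := by
          funext b
          rfl
        rw [this, List.filterMap_some]
      apply hcl (l.map (fun b => Sum.inr (Sum.inr b)))
      · intro a ha
        rw [List.mem_map] at ha
        obtain ⟨b, hb, rfl⟩ := ha
        exact hl b hb
      · right
        rw [h1]
        exact ⟨y, hy, rfl⟩
    have hq0' : Sum.inl q0.1 ∈ {b : P ⊕ Set P ⊕ A | (Sum.inr (Sum.inr b) :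
        {q : P // q ≤ p0} ⊕ Set {q : P // q ≤ p0} ⊕ (P ⊕ Set P ⊕ A)) ∈ N1} :=
      hg _ hq0 rfl
    obtain ⟨q, hq, hgen⟩ := hN _ hcN hclN q0.1 hq0'
    refine ⟨⟨q, hq.trans q0.2⟩, hq, ?_⟩
    intro D hD hdense r hr
    have hDt : Sum.inr (Sum.inl (Dt p0 D)) ∈ {b : P ⊕ Set P ⊕ A | (Sum.inr (Sum.inr b) :
        {q : P // q ≤ p0} ⊕ Set {q : P // q ≤ p0} ⊕ (P ⊕ Set P ⊕ A)) ∈ N1} :=
      hg _ hD rfl
    have hDd : ∀ p : P, ∃ r ∈ Dt p0 D, r ≤ p := by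
      intro p
      by_cases hc : Compat p p0
      · obtain ⟨t, ht1, ht2⟩ := hc
        obtain ⟨d, hd, hdt⟩ := hdense ⟨t, ht2⟩
        exact ⟨d.1, Or.inl ⟨d.2, hd⟩, le_trans hdt ht1⟩
      · exact ⟨p, Or.inr hc, le_rfl⟩
    obtain ⟨s, hs, hsN, t, ht1, ht2⟩ := hgen _ hDt hDd r.1 hr
    have hsc : Compat s p0 := ⟨t, ht2, ht1.trans r.2⟩
    rcases hs with ⟨hs0, hsD⟩ | hs
    · refine ⟨⟨s, hs0⟩, hsD, hg _ hsN ⟨hs0, rfl⟩, ⟨t, ht1.trans r.2⟩, ht1, ht2⟩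
    · exact absurd hsc hs

end PB

theorem PFA_below (h : PFA) (P : Type) [PartialOrder P] (hP : Proper P) (p0 : P) (𝒟 : Set (Set P))
    (h𝒟 : #𝒟 ≤ ℵ₁) (hd : ∀ D ∈ 𝒟, ∀ p : P, ∃ q ∈ D, q ≤ p) : ∃ G : Set P, p0 ∈ G ∧ MeetsAll 𝒟 G := by
  have : Nonempty {q : P // q ≤ p0} := ⟨⟨p0, le_rfl⟩⟩
  obtain ⟨G', ⟨g0, hg0⟩, hup, hdir, hmeet⟩ := h {q : P // q ≤ p0} (PB.proper_below hP p0)
    ((fun D : Set P => {q : {q : P // q ≤ p0} | ∃ d ∈ D, q.1 ≤ d}) '' 𝒟)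
    (Cardinal.mk_image_le.trans h𝒟) (by
      rintro _ ⟨D, hD, rfl⟩ q
      obtain ⟨d, hdD, hdq⟩ := hd D hD q.1
      exact ⟨⟨d, hdq.trans q.2⟩, ⟨d, hdD, le_rfl⟩, hdq⟩)
  refine ⟨{p | ∃ g ∈ G', g.1 ≤ p}, ⟨g0, hg0, g0.2⟩, ⟨p0, g0, hg0, g0.2⟩, ?_, ?_, ?_⟩
  · rintro p ⟨g, hg, hgp⟩ q hpq
    exact ⟨g, hg, hgp.trans hpq⟩
  · rintro p ⟨g, hg, hgp⟩ q ⟨g', hg', hgq⟩
    obtain ⟨r, hr, hr1, hr2⟩ := hdir g hg g' hg'
    exact ⟨r.1, ⟨r, hr, le_rfl⟩, le_trans hr1 hgp, le_trans hr2 hgq⟩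
  · intro D hD
    obtain ⟨g, hg, d, hdD, hgd⟩ := hmeet _ ⟨D, hD, rfl⟩
    exact ⟨d, ⟨g, hg, hgd⟩, hdD⟩

end Pool.Agent.Helper647.FU.J7
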