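import Pool.Agent.Helper647.FU.Defs

set_option autoImplicit false

open Set Cardinal Topology

namespace Pool.Agent.Helper647.FU.J8

theorem fu_lists {B : Type} {N : Set B} (hN : N.Countable) : {l : List B | ∀ a ∈ l, a ∈ N}.Countable := by
  rw [← Set.range_list_map_coe N]
  have : Countable N := hN.to_subtype
  exact Set.countable_range _

theorem closed_exists {B : Type} (F : List B → Set B) (hF : ∀ l, (F l).Countable) (N0 : Set B)
    (h0 : N0.Countable) : ∃ N : Set B, N0 ⊆ N ∧ N.Countable ∧ ClosedUnder F N := by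
  set step : Set B → Set B := fun N => N ∪ ⋃ l ∈ {l : List B | ∀ a ∈ l, a ∈ N}, F l with hstep
  have hc : ∀ k : ℕ, (step^[k] N0).Countable := by
    intro k
    induction k with
    | zero => exact h0
    | succ k ih =>
      rw [Function.iterate_succ_apply']
      exact ih.union ((fu_lists ih).biUnion fun l _ => hF l)
  have hm : Monotone fun k : ℕ => step^[k] N0 := by
    apply monotone_nat_of_le_succ
    intro k
    show step^[k] N0 ≤ step^[k + 1] N0
    rw [Function.iterate_succ_apply']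
    exact Set.subset_union_left
  refine ⟨⋃ k, step^[k] N0, ?_, Set.countable_iUnion hc, ?_⟩
  · exact Set.subset_iUnion (fun k => step^[k] N0) 0
  · intro l hl
    have : ∃ k : ℕ, ∀ a ∈ l, a ∈ step^[k] N0 := by
      induction l with
      | nil => exact ⟨0, by simp⟩
      | cons b l ih =>
        obtain ⟨k, hk⟩ := ih fun a ha => hl a (List.mem_cons_of_mem _ ha)
        obtain ⟨j, hj⟩ := Set.mem_iUnion.1 (hl b List.mem_cons_self)
        refine ⟨max k j, fun a ha => ?_⟩
        rcases List.mem_cons.1 ha with rfl | ha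
        · exact hm (le_max_right k j) hj
        · exact hm (le_max_left k j) (hk a ha)
    obtain ⟨k, hk⟩ := this
    intro x hx
    refine Set.mem_iUnion.2 ⟨k + 1, ?_⟩
    rw [Function.iterate_succ_apply']
    exact Or.inr (Set.mem_biUnion (show l ∈ {l : List B | ∀ a ∈ l, a ∈ step^[k] N0} from hk) hx)

/-- a maximal antichain inside `D` -/
theorem fu_maxanti {P : Type} [PartialOrder P] (D : Set P) :
    ∃ A : Set P, A ⊆ D ∧ (∀ p ∈ A, ∀ q ∈ A, p ≠ q → ¬ Compat p q) ∧
      ∀ d ∈ D, ∃ s ∈ A, Compat d s := by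
  obtain ⟨A, hA⟩ := zorn_subset {A : Set P | A ⊆ D ∧ ∀ p ∈ A, ∀ q ∈ A, p ≠ q → ¬ Compat p q} (by
    intro c hc hchain
    refine ⟨⋃₀ c, ⟨Set.sUnion_subset fun s hs => (hc hs).1, ?_⟩, fun s hs => Set.subset_sUnion_of_mem hs⟩
    rintro p ⟨s, hs, hp⟩ q ⟨t, ht, hq⟩ hne
    rcases hchain.total hs ht with h | h
    · exact (hc ht).2 p (h hp) q hq hne
    · exact (hc hs).2 p hp q (h hq) hne)
  refine ⟨A, hA.1.1, hA.1.2, fun d hd => ?_⟩
  by_contra hcon
  push Not at hcon
  have hins : insert d A ∈ {A : Set P | A ⊆ D ∧ ∀ p ∈ A, ∀ q ∈ A, p ≠ q → ¬ Compat p q} := by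
    refine ⟨Set.insert_subset hd hA.1.1, ?_⟩
    rintro p (rfl | hp) q (rfl | hq) hne
    · exact absurd rfl hne
    · exact hcon q hq
    · rintro ⟨r, h1, h2⟩
      exact hcon p hp ⟨r, h2, h1⟩
    · exact hA.1.2 p hp q hq hne
  have hmem : d ∈ A := hA.2 hins (Set.subset_insert d A) (Set.mem_insert d A)
  exact hcon d hmem ⟨d, le_rfl, le_rfl⟩

/-- the members of the chosen antichain -/
def fuF {P : Type} (M : Set P → Set P) : P ⊕ Set P ⊕ Unit → Set (P ⊕ Set P ⊕ Unit)
  | Sum.inl _ => ∅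
  | Sum.inr (Sum.inl D) => Sum.inl '' M D
  | Sum.inr (Sum.inr _) => ∅

/-- a ccc poset is proper -/
theorem proper_of_ccc (P : Type) [PartialOrder P] (h : CCC P) : Proper P := by
  choose M hM1 hM2 hM3 using fun D : Set P => fu_maxanti D
  refine ⟨Unit, fun l => ⋃ x ∈ {x | x ∈ l}, fuF M x, ?_, ?_⟩
  · intro l
    apply Set.Countable.biUnion (l.finite_toSet.countable)
    rintro (x | D | x) _
    · exact Set.countable_empty
    · exact (h (M D) (hM2 D)).image _
    · exact Set.countable_empty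
  · intro N _ hN p _
    refine ⟨p, le_rfl, ?_⟩
    intro D hD hdense r _
    obtain ⟨d, hd, hdr⟩ := hdense r
    obtain ⟨s, hs, t, ht1, ht2⟩ := hM3 D d hd
    refine ⟨s, hM1 D hs, ?_, t, ht1.trans hdr, ht2⟩
    apply hN [Sum.inr (Sum.inl D)] (by simpa using hD)
    refine Set.mem_biUnion (show Sum.inr (Sum.inl D) ∈ {x | x ∈ [Sum.inr (Sum.inl D)]} by simp) ?_
    exact ⟨s, hs, rfl⟩

theorem MA1_of_PFA (h : PFA) : MA1 :=
  fun P _ _ hccc 𝒟 h1 h2 => h P (proper_of_ccc P hccc) 𝒟 h1 h2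

end Pool.Agent.Helper647.FU.J8
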