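import Pool.Agent.Helper647.FU.Defs

set_option autoImplicit false

open Set Cardinal Topology

namespace Pool.Agent.Helper647.FU.J9

theorem exists_pos_oclosed_ocl {T : Type} [TopologicalSpace T] (E : Set T) :
    OClosed (ocl E) := by
  intro C hC hCc z hz
  have h1 : ∀ c : C, ∃ D ⊆ E, D.Countable ∧ c.1 ∈ closure D := fun c => hC c.2
  choose D hD1 hD2 hD3 using h1
  have : Countable C := hCc.to_subtype
  refine ⟨⋃ c, D c, Set.iUnion_subset hD1, Set.countable_iUnion hD2, ?_⟩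
  have h2 : C ⊆ closure (⋃ c, D c) := by
    intro c hc
    exact closure_mono (Set.subset_iUnion D ⟨c, hc⟩) (hD3 ⟨c, hc⟩)
  exact closure_minimal h2 isClosed_closure hz

theorem exists_pos_fin {T X : Type} [TopologicalSpace T] [CompactSpace T] (Z : Set T)
    (hZ : OClosed Z) (w : T) (hw : w ∈ closure Z) (e : T → X → ℝ)
    (he : ∀ x, Continuous fun t => e t x) (hew : ∀ x, e w x = 0) (s : Finset X) :
    ∃ z ∈ Z, ∀ x ∈ s, e z x = 0 := by
  have h1 : ∀ n : ℕ, ∃ z ∈ Z, ∀ x ∈ s, |e z x| < 1 / ((n : ℝ) + 1) := by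
    intro n
    have hO : IsOpen (⋂ x ∈ s, {t | |e t x| < 1 / ((n : ℝ) + 1)}) := by
      apply isOpen_biInter_finset
      intro x _
      exact isOpen_lt (he x).abs continuous_const
    have hwO : w ∈ (⋂ x ∈ s, {t | |e t x| < 1 / ((n : ℝ) + 1)}) := by
      rw [Set.mem_iInter₂]
      intro x _
      show |e w x| < _
      rw [hew, abs_zero]
      positivity
    obtain ⟨z, hz1, hz2⟩ := mem_closure_iff.mp hw _ hO hwO
    refine ⟨z, hz2, fun x hx => ?_⟩
    exact Set.mem_iInter₂.mp hz1 x hx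
  choose z hz1 hz2 using h1
  obtain ⟨y, hy⟩ := exists_clusterPt_of_compactSpace (Filter.map z Filter.atTop)
  have hyfreq : ∀ U ∈ 𝓝 y, ∃ᶠ n in Filter.atTop, z n ∈ U := by
    intro U hU
    exact mapClusterPt_iff_frequently.mp hy U hU
  refine ⟨y, ?_, ?_⟩
  · apply hZ (Set.range z) (by rintro _ ⟨n, rfl⟩; exact hz1 n) (Set.countable_range z)
    rw [mem_closure_iff_nhds]
    intro U hU
    obtain ⟨n, hn⟩ := (hyfreq U hU).exists
    exact ⟨z n, hn, n, rfl⟩
  · intro x hx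
    by_contra hne
    have hpos : 0 < |e y x| := abs_pos.mpr hne
    have hU : {t | |e y x| / 2 < |e t x|} ∈ 𝓝 y :=
      (isOpen_lt continuous_const (he x).abs).mem_nhds (by
        show |e y x| / 2 < |e y x|
        linarith)
    obtain ⟨N, hN⟩ := exists_nat_one_div_lt (half_pos hpos)
    obtain ⟨n, hn1, hn2⟩ := ((hyfreq _ hU).and_eventually (Filter.eventually_ge_atTop N)).exists
    have h3 := hz2 n x hx
    have h4 : 1 / ((n : ℝ) + 1) ≤ 1 / ((N : ℝ) + 1) := by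
      apply one_div_le_one_div_of_le (by positivity)
      have : (N : ℝ) ≤ n := by exact_mod_cast hn2
      linarith
    have hn1' : |e y x| / 2 < |e (z n) x| := hn1
    linarith

theorem exists_pos {T X : Type} [TopologicalSpace T] [CompactSpace T] (Z : Set T) (hZ : OClosed Z)
    (w : T) (hw : w ∈ closure Z) (e : T → X → ℝ) (he : ∀ x, Continuous fun t => e t x)
    (hew : ∀ x, e w x = 0) : ∃ Pos : Set T → Prop, PosSys Z e Pos :=  by
  classical
  obtain ⟨Zx, hZx⟩ : ∃ Zx : X → Set T, ∀ x, Zx x = {z ∈ Z | e z x = 0} := ⟨_, fun _ => rfl⟩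
  have hZxm : ∀ x z, z ∈ Zx x ↔ z ∈ Z ∧ e z x = 0 := by
    intro x z
    rw [hZx]
    exact Iff.rfl
  have hZxO : ∀ x, OClosed (Zx x) := by
    intro x C hC hCc z hz
    rw [hZxm]
    refine ⟨hZ C (fun c hc => ((hZxm x c).mp (hC hc)).1) hCc hz, ?_⟩
    have hcl : IsClosed {t | e t x = 0} := isClosed_eq (he x) continuous_const
    exact closure_minimal (fun c hc => ((hZxm x c).mp (hC hc)).2) hcl hz
  have hfin := exists_pos_fin Z hZ w hw e he hew
  obtain ⟨S, hS⟩ : ∃ S : Set (Set (Set T)), ∀ 𝒢, 𝒢 ∈ S ↔ ((∀ G ∈ 𝒢, G ⊆ Z ∧ OClosed G) ∧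
    ∀ F : Finset (Set T), (F : Set (Set T)) ⊆ 𝒢 → (Z ∩ ⋂₀ (F : Set (Set T))).Nonempty) :=
    ⟨{𝒢 | (∀ G ∈ 𝒢, G ⊆ Z ∧ OClosed G) ∧
      ∀ F : Finset (Set T), (F : Set (Set T)) ⊆ 𝒢 → (Z ∩ ⋂₀ (F : Set (Set T))).Nonempty},
      fun _ => Iff.rfl⟩
  have hbase : Set.range Zx ∈ S := by
    rw [hS]
    refine ⟨?_, ?_⟩
    · rintro _ ⟨x, rfl⟩
      exact ⟨fun z hz => ((hZxm x z).mp hz).1, hZxO x⟩
    · intro F hF
      have h1 : ∀ G : F, ∃ x, Zx x = G.1 := fun G => hF G.2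
      choose g hg using h1
      obtain ⟨z, hz, hz2⟩ := hfin (Finset.univ.image g)
      refine ⟨z, hz, ?_⟩
      intro G hG
      have h2 := hg ⟨G, hG⟩
      have h3 : z ∈ Zx (g ⟨G, hG⟩) := by
        rw [hZxm]
        exact ⟨hz, hz2 _ (Finset.mem_image_of_mem _ (Finset.mem_univ _))⟩
      rw [h2] at h3
      exact h3
  obtain ⟨𝒢, hb, hmax⟩ := zorn_subset_nonempty S (by
    intro c hcS hc hcn
    refine ⟨⋃₀ c, ?_, fun s hs => Set.subset_sUnion_of_mem hs⟩
    rw [hS]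
    refine ⟨?_, ?_⟩
    · rintro G ⟨𝒢', h1, h2⟩
      exact ((hS _).mp (hcS h1)).1 G h2
    · intro F hF
      obtain ⟨𝒢', h1, h2⟩ := hc.directedOn.exists_mem_subset_of_finite_of_subset_sUnion hcn
        F.finite_toSet hF
      exact ((hS _).mp (hcS h1)).2 F h2) _ hbase
  have h𝒢 := (hS _).mp hmax.1
  have key : ∀ I : Set T, I ⊆ Z → OClosed I → (∀ F : Finset (Set T), (F : Set (Set T)) ⊆ 𝒢 →
      (I ∩ (Z ∩ ⋂₀ (F : Set (Set T)))).Nonempty) → I ∈ 𝒢 := by
    intro I hI hO h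
    have h1 : insert I 𝒢 ∈ S := by
      rw [hS]
      refine ⟨?_, ?_⟩
      · rintro G (rfl | hG)
        · exact ⟨hI, hO⟩
        · exact h𝒢.1 G hG
      · intro F hF
        obtain ⟨z, hz1, hz2, hz3⟩ := h (F.filter (· ∈ 𝒢)) (by
          intro G hG
          exact (Finset.mem_filter.mp hG).2)
        refine ⟨z, hz2, ?_⟩
        intro G hG
        rcases hF hG with h2 | h2
        · rw [h2]; exact hz1
        · exact hz3 G (Finset.mem_filter.mpr ⟨hG, h2⟩)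
    exact hmax.2 h1 (Set.subset_insert _ _) (Set.mem_insert _ _)
  have key2 : ∀ F : Finset (Set T), (F : Set (Set T)) ⊆ 𝒢 → (Z ∩ ⋂₀ (F : Set (Set T))) ∈ 𝒢 := by
    intro F hF
    refine key _ Set.inter_subset_left ?_ ?_
    · intro C hC hCc z hz
      refine ⟨hZ C (fun c hc => (hC hc).1) hCc hz, ?_⟩
      intro G hG
      exact (h𝒢.1 G (hF hG)).2 C (fun c hc => (hC hc).2 G hG) hCc hz
    · intro F' hF'
      obtain ⟨z, hz1, hz2⟩ := h𝒢.2 (F ∪ F') (by
        rw [Finset.coe_union]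
        exact Set.union_subset hF hF')
      rw [Finset.coe_union, Set.sInter_union] at hz2
      exact ⟨z, ⟨hz1, hz2.1⟩, hz1, hz2.2⟩
  have key3 : ∀ A : Set T, A ⊆ Z → OClosed A → (∀ G ∈ 𝒢, (A ∩ G).Nonempty) → A ∈ 𝒢 := by
    intro A hA hO h
    exact key A hA hO fun F hF => h _ (key2 F hF)
  have hpair : ∀ G ∈ 𝒢, ∀ G' ∈ 𝒢, (G ∩ G').Nonempty := by
    intro G hG G' hG'
    obtain ⟨z, hz1, hz2⟩ := h𝒢.2 {G, G'} (by
      intro H hH
      rw [Finset.coe_insert, Finset.coe_singleton] at hH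
      rcases hH with rfl | rfl
      · exact hG
      · exact hG')
    refine ⟨z, hz2 G (by simp), hz2 G' (by simp)⟩
  refine ⟨fun E => ∀ G ∈ 𝒢, (E ∩ G).Nonempty, ?_, ?_, ?_⟩
  · intro E hE hnp
    push Not at hnp
    obtain ⟨G, hG, hEG⟩ := hnp
    refine ⟨G, (h𝒢.1 G hG).1, (h𝒢.1 G hG).2, hpair G hG, ?_⟩
    rw [Set.disjoint_iff_inter_eq_empty, Set.inter_comm]
    exact hEG
  · intro l hl
    have hmem : ∀ E ∈ l, ocl E ∈ 𝒢 := by
      intro E hE
      obtain ⟨h1, h2⟩ := hl E hE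
      refine key3 _ ?_ (exists_pos_oclosed_ocl E) ?_
      · rintro z ⟨C, hC, hCc, hz⟩
        exact hZ C (hC.trans h1) hCc hz
      · intro G hG
        obtain ⟨z, hz1, hz2⟩ := h2 G hG
        exact ⟨z, ⟨{z}, by simpa using hz1, Set.countable_singleton z,
          subset_closure (Set.mem_singleton z)⟩, hz2⟩
    obtain ⟨z, hz1, hz2⟩ := h𝒢.2 (l.toFinset.image ocl) (by
      intro G hG
      rw [Finset.coe_image] at hG
      obtain ⟨E, hE, rfl⟩ := hG
      exact hmem E (List.mem_toFinset.mp hE))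
    refine ⟨z, hz1, fun E hE => ?_⟩
    apply hz2
    rw [Finset.coe_image]
    exact ⟨E, List.mem_toFinset.mpr hE, rfl⟩
  · intro x G hG
    have := hpair (Zx x) (hb ⟨x, rfl⟩) G hG
    rw [hZx] at this
    exact this

end Pool.Agent.Helper647.FU.J9
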