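import Pool.Agent.Helper647.FU.MAFinal
import Pool.Agent.Helper647.FU.J7
import Pool.Agent.Helper647.FU.J8
import Pool.Agent.Helper647.FU.J9
import Pool.Agent.Helper647.FU.J10
import Pool.Agent.Helper647.FU.J11
import Pool.Agent.Helper647.FU.J13
import Pool.Agent.Helper647.FU.J14

set_option autoImplicit false

open Set Cardinal Topology

namespace Pool.Agent.Helper647.FU

section basic

variable {T X W : Type} [TopologicalSpace T] {Z : Set T} {e : T → X → ℝ} {Pos : Set T → Prop}
  {M : Set (U T X W)}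

theorem Phi_pos (hM : Good Z e Pos M) {z : T} (hz : z ∈ Phi Z Pos M) {E : Set T} (hE : E ⊆ Z)
    (hc : (U.s (enc E) : U T X W) ∈ M) (hzE : z ∈ E) (hcM : M.Countable) : Pos E := by
  by_contra hp
  obtain ⟨G, hGZ, hGo, hGp, hGd, hGc⟩ := hM.d E hE hc hp
  have h1 := hz.2 G hGZ hGc hGp
  have h2 : (G ∩ {t | (U.z t : U T X W) ∈ M}).Countable := by
    refine Countable.mono inter_subset_right ?_
    refine hcM.preimage_of_injOn (f := fun t => (U.z t : U T X W)) ?_
    intro a _ b _ hab
    exact U.z.inj hab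
  have h3 : z ∈ G := hGo _ inter_subset_left h2 h1
  exact Set.disjoint_left.1 hGd h3 hzE

theorem Phi_zero (hP : PosSys Z e Pos) (hM : Good Z e Pos M) (he : ∀ x, Continuous fun t => e t x)
    {z : T} (hz : z ∈ Phi Z Pos M) {x : X} (hx : (U.x x : U T X W) ∈ M) : e z x = 0 := by
  have h1 := hz.2 {z ∈ Z | e z x = 0} (fun t ht => ht.1) (hM.g x hx) (hP.p3 x)
  have h2 : IsClosed {t : T | e t x = 0} := isClosed_eq (he x) continuous_const
  have h3 : closure ({z ∈ Z | e z x = 0} ∩ {t | (U.z t : U T X W) ∈ M}) ⊆ {t : T | e t x = 0} :=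
    closure_minimal (fun t ht => ht.1.2) h2
  exact h3 h1

theorem down (l : List (Set (U T X W) × T))
    (hg : ∀ a ∈ l, Good Z e Pos a.1 ∧ a.2 ∈ Phi Z Pos a.1 ∧ a.1.Countable)
    (hch : l.Pairwise fun a b => a.1 ⊆ b.1 ∧ U.z a.2 ∈ b.1)
    (A : Set (List T)) (hA : ∀ a ∈ l, U.s A ∈ a.1) (hl : l.map Prod.snd ∈ A) :
    Large Z Pos l.length A := by
  induction l generalizing A with
  | nil => simpa [Large] using hl
  | cons a l ih =>
    rw [List.pairwise_cons] at hch
    have h1 : Large Z Pos l.length {t | a.2 :: t ∈ A} := by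
      apply ih (fun b hb => hg b (List.mem_cons_of_mem _ hb)) hch.2
      · intro b hb
        exact (hg b (List.mem_cons_of_mem _ hb)).1.b A a.2 ((hch.1 b hb).1 (hA a (by simp)))
          (hch.1 b hb).2
      · simpa using hl
    have ha := hg a (by simp)
    change Pos {t ∈ Z | Large Z Pos l.length {l | t :: l ∈ A}}
    refine Phi_pos ha.1 ha.2.1 (fun t ht => ht.1) (ha.1.c A l.length (hA a (by simp))) ?_ ha.2.2
    exact ⟨ha.2.1.1, h1⟩

theorem up (hM : Good Z e Pos M) {z : T} (hz : z ∈ Phi Z Pos M) (V : Set T) (hV : IsOpen V)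
    (hzV : z ∈ V) (n : ℕ) (A : Set (List T)) (hA : U.s A ∈ M) (hL : Large Z Pos n A) :
    ∃ t ∈ A, t.length = n ∧ ∀ a ∈ t, a ∈ V ∧ U.z a ∈ M := by
  induction n generalizing A with
  | zero => exact ⟨[], hL, rfl, by simp⟩
  | succ n ih =>
    have h1 := hz.2 {t ∈ Z | Large Z Pos n {l | t :: l ∈ A}} (fun t ht => ht.1) (hM.c A n hA) hL
    obtain ⟨t, htV, ht⟩ := mem_closure_iff.1 h1 V hV hzV
    obtain ⟨l, hlA, hln, hl⟩ := ih {l | t :: l ∈ A} (hM.b A t hA ht.2) ht.1.2
    refine ⟨t :: l, hlA, by simp [hln], ?_⟩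
    intro a ha
    rcases List.mem_cons.1 ha with rfl | ha
    · exact ⟨htV, ht.2⟩
    · exact hl a ha

end basic

/-- elements of conditions -/
structure Elt (T X W : Type) where
  m : ℕ → U T X W
  z : T
  x : X
  g : Option (ℕ → U T X W)

def code {T X W : Type} (a : Elt T X W) : U T X W :=
  U.p fun n => match n with
    | 0 => U.p a.m
    | 1 => U.z a.z
    | 2 => U.x a.x
    | 3 => (match a.g with | none => U.z a.z | some h => U.p h)
    | _ => U.z a.z

theorem code_inj {T X W : Type} : Function.Injective (code : Elt T X W → U T X W) := by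
  rintro ⟨m, z, x, g⟩ ⟨m', z', x', g'⟩ h
  have h0 := U.p.inj h
  have e0 := congrFun h0 0
  have e1 := congrFun h0 1
  have e2 := congrFun h0 2
  have e3 := congrFun h0 3
  simp only [U.p.injEq, U.z.injEq, U.x.injEq] at e0 e1 e2
  subst e0 e1 e2
  cases g <;> cases g' <;> simp_all

section poset

variable {T X W : Type} [TopologicalSpace T] (Z : Set T) (e : T → X → ℝ) (Pos : Set T → Prop)

structure Valid (a : Elt T X W) : Prop where
  good : Good Z e Pos (range a.m)
  phi : a.z ∈ Phi Z Pos (range a.m)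
  big : 1 ≤ |e a.z a.x|
  gg : ∀ h, a.g = some h → Good Z e Pos (range h)

def Exempt (a b : Elt T X W) : Prop := ∃ h, b.g = some h ∧ (a.m = h ∨ code a ∈ range h)

def Rel (a b : Elt T X W) : Prop := code a ∈ range b.m ∧ (Exempt a b ∨ 2 / 3 < |e a.z b.x|)

def Cond (W : Type) : Type :=
  {l : List (Elt T X W) // (∀ a ∈ l, Valid Z e Pos a) ∧ l.Pairwise (Rel e)}

instance : PartialOrder (Cond Z e Pos W) where
  le p q := q.1.Sublist p.1
  le_refl p := List.Sublist.refl _
  le_trans p q r h1 h2 := h2.trans h1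
  le_antisymm p q h1 h2 := Subtype.ext (h2.antisymm h1)

theorem code_mem {M : Set (U T X W)} (hM : Good Z e Pos M) {a : Elt T X W} (h : code a ∈ M) :
    range a.m ⊆ M ∧ U.z a.z ∈ M ∧ U.x a.x ∈ M := by
  have h1 := hM.a _ h
  refine ⟨?_, h1 1, h1 2⟩
  rintro _ ⟨n, rfl⟩
  exact hM.a _ (h1 0) n

/-- part of a model of codes -/
def UP {P : Type} (N : Set (P ⊕ Set P ⊕ U T X W)) : Set (U T X W) :=
  {u | Sum.inr (Sum.inr u) ∈ N}

structure NGood (N : Set (Cond Z e Pos W ⊕ Set (Cond Z e Pos W) ⊕ U T X W)) : Prop where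
  good : Good Z e Pos (UP N)
  two : ∀ p : Cond Z e Pos W, Sum.inl p ∈ N → ∀ a ∈ p.1, code a ∈ UP N
  three : ∀ p : Cond Z e Pos W, (∀ a ∈ p.1, code a ∈ UP N) → Sum.inl p ∈ N
  four : ∀ (p : Cond Z e Pos W) (D : Set (Cond Z e Pos W)), Sum.inl p ∈ N →
    Sum.inr (Sum.inl D) ∈ N →
    U.s {t | ∃ r ∈ D, ∃ l', r.1 = p.1 ++ l' ∧ l'.map Elt.z = t} ∈ UP N
  five : ∀ (p : Cond Z e Pos W) (D : Set (Cond Z e Pos W)) (t : List T), Sum.inl p ∈ N →
    Sum.inr (Sum.inl D) ∈ N → (∀ a ∈ t, U.z a ∈ UP N) →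
    (∃ r ∈ D, ∃ l', r.1 = p.1 ++ l' ∧ l'.map Elt.z = t) →
    ∃ r ∈ D, Sum.inl r ∈ N ∧ ∃ l', r.1 = p.1 ++ l' ∧ l'.map Elt.z = t

theorem countable_lists {α : Type} {s : Set α} (hs : s.Countable) :
    {t : List α | ∀ a ∈ t, a ∈ s}.Countable := by
  have : Countable s := hs.to_subtype
  have h : {t : List α | ∀ a ∈ t, a ∈ s} ⊆ range (List.map (Subtype.val : s → α)) := by
    intro t ht
    have : t ∈ range (List.map (Subtype.val : s → α)) := by
      rw [Set.range_list_map]
      intro a ha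
      exact ⟨⟨a, ht a ha⟩, rfl⟩
    exact this
  exact (countable_range _).mono h

theorem ngood_closure (W : Type) (S0 : List (U T X W) → Set (U T X W))
    (hS0 : ∀ l, (S0 l).Countable) (hS0' : ∀ M, ClosedUnder S0 M → Good Z e Pos M) :
    ∃ F : List (Cond Z e Pos W ⊕ Set (Cond Z e Pos W) ⊕ U T X W) →
      Set (Cond Z e Pos W ⊕ Set (Cond Z e Pos W) ⊕ U T X W), (∀ l, (F l).Countable) ∧
      ∀ N, ClosedUnder F N → NGood Z e Pos N := by
  classical
  let B := Cond Z e Pos W ⊕ Set (Cond Z e Pos W) ⊕ U T X W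
  let iU : U T X W → B := fun u => Sum.inr (Sum.inr u)
  have iU_inj : Function.Injective iU := fun a b h => by
    have := Sum.inr.inj h
    exact Sum.inr.inj this
  let uOf : B → Option (U T X W) := fun b => match b with
    | Sum.inl _ => none
    | Sum.inr (Sum.inl _) => none
    | Sum.inr (Sum.inr u) => some u
  let g2 : B → Set B := fun b => match b with
    | Sum.inl p => (fun a => iU (code a)) '' {a | a ∈ p.1}
    | Sum.inr _ => ∅
  let g4 : B × B → B := fun x => match x with
    | (Sum.inl p, Sum.inr (Sum.inl D)) =>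
        iU (U.s {t | ∃ r ∈ D, ∃ l', r.1 = p.1 ++ l' ∧ l'.map Elt.z = t})
    | (c, _) => c
  let g5 : B × B × List T → B := fun x => match x with
    | (Sum.inl p, Sum.inr (Sum.inl D), t) =>
        if h : ∃ r, r ∈ D ∧ ∃ l', r.1 = p.1 ++ l' ∧ l'.map Elt.z = t then Sum.inl h.choose
        else Sum.inl p
    | (c, _, _) => c
  let F1 : List B → Set B := fun l => iU '' S0 (l.filterMap uOf)
  let F2 : List B → Set B := fun l => ⋃ c ∈ {b | b ∈ l}, g2 c
  let F3 : List B → Set B := fun l => Sum.inl '' {p : Cond Z e Pos W | ∀ a ∈ p.1, iU (code a) ∈ l}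
  let F4 : List B → Set B := fun l => g4 '' ({b | b ∈ l} ×ˢ {b | b ∈ l})
  let F5 : List B → Set B := fun l => g5 '' ({b | b ∈ l} ×ˢ {b | b ∈ l} ×ˢ
    {t : List T | ∀ a ∈ t, a ∈ {a | iU (U.z a) ∈ l}})
  have hl : ∀ l : List B, {b | b ∈ l}.Countable := fun l => (List.finite_toSet l).countable
  refine ⟨fun l => F1 l ∪ F2 l ∪ F3 l ∪ F4 l ∪ F5 l, ?_, ?_⟩
  · intro l
    refine ((((?_ : Set.Countable _).union ?_).union ?_).union ?_).union ?_
    · exact (hS0 _).image _
    · refine (hl l).biUnion ?_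
      intro c _
      rcases c with p | c
      · exact ((List.finite_toSet p.1).countable).image _
      · exact countable_empty
    · refine Set.Countable.image ?_ _
      have h1 : {u : U T X W | iU u ∈ l}.Countable := (hl l).preimage iU_inj
      have h2 := countable_lists h1
      have h3 : Function.Injective (fun p : Cond Z e Pos W => p.1.map code) := by
        intro p q hpq
        exact Subtype.ext (List.map_injective_iff.2 code_inj hpq)
      refine (h2.preimage h3).mono ?_
      intro p hp u hu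
      obtain ⟨a, ha, rfl⟩ := List.mem_map.1 hu
      exact hp a ha
    · exact (((hl l).prod (hl l))).image _
    · refine (((hl l).prod ((hl l).prod (countable_lists ?_)))).image _
      have hz : Function.Injective (fun a : T => iU (U.z a)) := fun a b h => U.z.inj (iU_inj h)
      exact (hl l).preimage hz
  · intro N hN
    have hN1 : ∀ l : List B, (∀ a ∈ l, a ∈ N) → F1 l ⊆ N := fun l h b hb =>
      hN l h (Or.inl (Or.inl (Or.inl (Or.inl hb))))
    have hN2 : ∀ l : List B, (∀ a ∈ l, a ∈ N) → F2 l ⊆ N := fun l h b hb =>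
      hN l h (Or.inl (Or.inl (Or.inl (Or.inr hb))))
    have hN3 : ∀ l : List B, (∀ a ∈ l, a ∈ N) → F3 l ⊆ N := fun l h b hb =>
      hN l h (Or.inl (Or.inl (Or.inr hb)))
    have hN4 : ∀ l : List B, (∀ a ∈ l, a ∈ N) → F4 l ⊆ N := fun l h b hb =>
      hN l h (Or.inl (Or.inr hb))
    have hN5 : ∀ l : List B, (∀ a ∈ l, a ∈ N) → F5 l ⊆ N := fun l h b hb =>
      hN l h (Or.inr hb)
    refine ⟨?_, ?_, ?_, ?_, ?_⟩
    · apply hS0'
      intro m hm u hu
      apply hN1 (m.map iU)
      · intro a ha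
        obtain ⟨v, hv, rfl⟩ := List.mem_map.1 ha
        exact hm v hv
      · refine ⟨u, ?_, rfl⟩
        have : (m.map iU).filterMap uOf = m := by
          rw [List.filterMap_map]
          have : uOf ∘ iU = some := by funext v; rfl
          rw [this, List.filterMap_some]
        rw [this]
        exact hu
    · intro p hp a ha
      apply hN2 [Sum.inl p]
      · intro b hb
        rw [List.mem_singleton] at hb
        rw [hb]; exact hp
      · refine mem_biUnion (x := Sum.inl p) (List.mem_singleton.2 rfl) ?_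
        exact ⟨a, ha, rfl⟩
    · intro p hp
      apply hN3 (p.1.map fun a => iU (code a))
      · intro b hb
        obtain ⟨a, ha, rfl⟩ := List.mem_map.1 hb
        exact hp a ha
      · exact ⟨p, fun a ha => List.mem_map.2 ⟨a, ha, rfl⟩, rfl⟩
    · intro p D hp hD
      apply hN4 [Sum.inl p, Sum.inr (Sum.inl D)]
      · intro b hb
        rcases List.mem_pair.1 hb with rfl | rfl
        · exact hp
        · exact hD
      · exact ⟨(Sum.inl p, Sum.inr (Sum.inl D)), ⟨List.mem_pair.2 (Or.inl rfl),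
          List.mem_pair.2 (Or.inr rfl)⟩, rfl⟩
    · intro p D t hp hD ht hr
      have hr' : ∃ r, r ∈ D ∧ ∃ l', r.1 = p.1 ++ l' ∧ l'.map Elt.z = t := hr
      refine ⟨hr'.choose, hr'.choose_spec.1, ?_, hr'.choose_spec.2⟩
      apply hN5 (Sum.inl p :: Sum.inr (Sum.inl D) :: t.map fun a => iU (U.z a))
      · intro b hb
        rcases List.mem_cons.1 hb with rfl | hb
        · exact hp
        rcases List.mem_cons.1 hb with rfl | hb
        · exact hD
        obtain ⟨a, ha, rfl⟩ := List.mem_map.1 hb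
        exact ht a ha
      · refine ⟨(Sum.inl p, Sum.inr (Sum.inl D), t), ⟨?_, ?_, ?_⟩, ?_⟩
        · exact List.mem_cons_self
        · exact List.mem_cons_of_mem _ List.mem_cons_self
        · intro a ha
          exact List.mem_cons_of_mem _ (List.mem_cons_of_mem _ (List.mem_map.2 ⟨a, ha, rfl⟩))
        · exact dif_pos hr'

variable {Z e Pos}

theorem gen {N : Set (Cond Z e Pos W ⊕ Set (Cond Z e Pos W) ⊕ U T X W)} (hN : NGood Z e Pos N)
    (hNc : N.Countable) (he : ∀ x, Continuous fun t => e t x)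
    {a : Elt T X W} (haN : range a.m = UP N) (q : Cond Z e Pos W) (haq : a ∈ q.1)
    (D : Set (Cond Z e Pos W)) (hD : Sum.inr (Sum.inl D) ∈ N) (hDd : ∀ p, ∃ r ∈ D, r ≤ p) :
    ∃ s ∈ D, Sum.inl s ∈ N ∧ Compat q s := by
  classical
  obtain ⟨d, hdD, hdq⟩ := hDd q
  have had : a ∈ d.1 := List.Sublist.mem haq hdq
  obtain ⟨l0, l2, hd⟩ := List.append_of_mem had
  have hval := d.2.1
  have hpw := d.2.2
  rw [hd] at hval hpw
  rw [List.pairwise_append] at hpw
  obtain ⟨hpw0, hpw2, hpw02⟩ := hpw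
  have hpw2' := hpw2
  rw [List.pairwise_cons] at hpw2
  obtain ⟨hpa, hpw2⟩ := hpw2
  let p0 : Cond Z e Pos W := ⟨l0, fun b hb => hval b (by simp [hb]), hpw0⟩
  have hp0 : Sum.inl p0 ∈ N := by
    apply hN.three
    intro b hb
    rw [← haN]
    exact (hpw02 b hb a (by simp)).1
  set A : Set (List T) := {t | ∃ r ∈ D, ∃ l', r.1 = p0.1 ++ l' ∧ l'.map Elt.z = t} with hAdef
  have hA : U.s A ∈ UP N := hN.four p0 D hp0 hD
  have hsub : ∀ b ∈ l2, range a.m ⊆ range b.m := by
    intro b hb
    exact (code_mem Z e Pos (hval b (by simp [hb])).good (hpa b hb).1).1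
  have hlarge : Large Z Pos (l2.length + 1) A := by
    have := down (Z := Z) (e := e) (Pos := Pos) (W := W)
      ((a :: l2).map fun b => (range b.m, b.z)) ?_ ?_ A ?_ ?_
    · simpa using this
    · intro c hc
      obtain ⟨b, hb, rfl⟩ := List.mem_map.1 hc
      have hv := hval b (by
        rw [List.mem_append]; exact Or.inr hb)
      exact ⟨hv.good, hv.phi, countable_range _⟩
    · rw [List.pairwise_map]
      refine List.Pairwise.imp_of_mem ?_ hpw2'
      intro b c hb hc hbc
      have hv := hval c (by rw [List.mem_append]; exact Or.inr hc)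
      have := code_mem Z e Pos hv.good hbc.1
      exact ⟨this.1, this.2.1⟩
    · intro c hc
      obtain ⟨b, hb, rfl⟩ := List.mem_map.1 hc
      rcases List.mem_cons.1 hb with rfl | hb
      · change U.s A ∈ range b.m
        rw [haN]; exact hA
      · apply hsub b hb
        rw [haN]; exact hA
    · refine ⟨d, hdD, a :: l2, hd, ?_⟩
      simp
  let V : Set T := {t | 2 / 3 < |e t a.x|} ∩ ⋂ b ∈ {b | b ∈ l2 ∧ ¬ Exempt a b}, {t | 2 / 3 < |e t b.x|}
  have hVo : IsOpen V := by
    refine IsOpen.inter (isOpen_lt continuous_const (he a.x).abs) ?_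
    have hfin : {b | b ∈ l2 ∧ ¬ Exempt a b}.Finite :=
      (List.finite_toSet l2).subset fun b hb => hb.1
    exact hfin.isOpen_biInter fun b _ => isOpen_lt continuous_const (he b.x).abs
  have hva := hval a (by simp)
  have hVa : a.z ∈ V := by
    refine ⟨?_, ?_⟩
    · have := hva.big
      change 2 / 3 < |e a.z a.x|
      linarith
    · simp only [mem_iInter]
      rintro b ⟨hb, hbe⟩
      exact (hpa b hb).2.resolve_left hbe
  have hphi : a.z ∈ Phi Z Pos (UP N) := by
    rw [← haN]; exact hva.phi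
  obtain ⟨t, htA, htn, htV⟩ := up (Z := Z) (e := e) (Pos := Pos) hN.good hphi V hVo hVa
    (l2.length + 1) A hA hlarge
  obtain ⟨s, hsD, hsN, l', hsl, hl't⟩ := hN.five p0 D t hp0 hD (fun c hc => (htV c hc).2) htA
  refine ⟨s, hsD, hsN, ?_⟩
  have hl'V : ∀ b ∈ l', b.z ∈ V ∧ code b ∈ range a.m := by
    intro b hb
    refine ⟨(htV b.z ?_).1, ?_⟩
    · rw [← hl't]; exact List.mem_map_of_mem hb
    · rw [haN]
      apply hN.two s hsN
      rw [hsl]; simp [hb]
  have hcross : ∀ b ∈ l', ∀ c ∈ a :: l2, Rel e b c := by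
    intro b hb c hc
    obtain ⟨hbV, hbc⟩ := hl'V b hb
    rcases List.mem_cons.1 hc with rfl | hc
    · exact ⟨hbc, Or.inr hbV.1⟩
    · refine ⟨hsub c hc hbc, ?_⟩
      by_cases hex : Exempt a c
      · left
        obtain ⟨h, hg, hh⟩ := hex
        refine ⟨h, hg, Or.inr ?_⟩
        rcases hh with hh | hh
        · rw [← hh]; exact hbc
        · have hvc := hval c (by simp [hc])
          exact (code_mem Z e Pos (hvc.gg h hg) hh).1 hbc
      · right
        have := hbV.2
        simp only [mem_iInter] at this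
        exact this c ⟨hc, hex⟩
  have hsv := s.2.1
  have hsp := s.2.2
  rw [hsl] at hsv hsp
  refine ⟨⟨(l0 ++ l') ++ (a :: l2), ?_, ?_⟩, ?_, ?_⟩
  · intro b hb
    rcases List.mem_append.1 hb with hb | hb
    · exact hsv b hb
    · exact hval b (by rw [List.mem_append]; exact Or.inr hb)
  · rw [List.pairwise_append]
    refine ⟨hsp, hpw2', ?_⟩
    intro b hb c hc
    rcases List.mem_append.1 hb with hb | hb
    · exact hpw02 b hb c hc
    · exact hcross b hb c hc
  · refine le_trans ?_ hdq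
    change d.1.Sublist _
    rw [hd]
    exact List.Sublist.append (List.sublist_append_left _ _) (List.Sublist.refl _)
  · change s.1.Sublist _
    rw [hsl]
    exact List.sublist_append_left _ _

end poset

end Pool.Agent.Helper647.FU
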