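import Mathlib

set_option autoImplicit false

open Set Cardinal Topology

namespace Pool.Agent.Helper647.FU

/-- two conditions are compatible -/
def Compat {P : Type} [PartialOrder P] (p q : P) : Prop := ∃ r : P, r ≤ p ∧ r ≤ q

/-- countable chain condition -/
def CCC (P : Type) [PartialOrder P] : Prop :=
  ∀ A : Set P, (∀ p ∈ A, ∀ q ∈ A, p ≠ q → ¬ Compat p q) → A.Countable

/-- filter meeting all members of `𝒟` -/
def MeetsAll {P : Type} [PartialOrder P] (𝒟 : Set (Set P)) (G : Set P) : Prop :=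
  G.Nonempty ∧ (∀ p ∈ G, ∀ q : P, p ≤ q → q ∈ G) ∧
    (∀ p ∈ G, ∀ q ∈ G, ∃ r ∈ G, r ≤ p ∧ r ≤ q) ∧ ∀ D ∈ 𝒟, (G ∩ D).Nonempty

def MA1 : Prop :=
  ∀ (P : Type) [PartialOrder P] [Nonempty P], CCC P →
    ∀ 𝒟 : Set (Set P), #𝒟 ≤ ℵ₁ → (∀ D ∈ 𝒟, ∀ p : P, ∃ q ∈ D, q ≤ p) → ∃ G : Set P, MeetsAll 𝒟 G

/-- `N` is closed under `F` -/
def ClosedUnder {B : Type} (F : List B → Set B) (N : Set B) : Prop :=
  ∀ l : List B, (∀ a ∈ l, a ∈ N) → F l ⊆ N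

def GenericOver {P : Type} [PartialOrder P] {A : Type} (N : Set (P ⊕ Set P ⊕ A)) (q : P) : Prop :=
  ∀ D : Set P, Sum.inr (Sum.inl D) ∈ N → (∀ p : P, ∃ r ∈ D, r ≤ p) →
    ∀ r ≤ q, ∃ s ∈ D, Sum.inl s ∈ N ∧ Compat r s

def Proper (P : Type) [PartialOrder P] : Prop :=
  ∃ (A : Type) (F : List (P ⊕ Set P ⊕ A) → Set (P ⊕ Set P ⊕ A)), (∀ l, (F l).Countable) ∧
    ∀ N : Set (P ⊕ Set P ⊕ A), N.Countable → ClosedUnder F N →
      ∀ p : P, Sum.inl p ∈ N → ∃ q ≤ p, GenericOver N q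

def PFA : Prop :=
  ∀ (P : Type) [PartialOrder P] [Nonempty P], Proper P →
    ∀ 𝒟 : Set (Set P), #𝒟 ≤ ℵ₁ → (∀ D ∈ 𝒟, ∀ p : P, ∃ q ∈ D, q ≤ p) → ∃ G : Set P, MeetsAll 𝒟 G

/-- countable tightness -/
def CTight (T : Type*) [TopologicalSpace T] : Prop :=
  ∀ (A : Set T) (x : T), x ∈ closure A → ∃ B ⊆ A, B.Countable ∧ x ∈ closure B

/-- universe of codes -/
inductive U (T X W : Type) : Type
  | z : T → U T X W
  | x : X → U T X W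
  | s : Set (List T) → U T X W
  | w : W → U T X W
  | p : (ℕ → U T X W) → U T X W

/-- a set of points as a set of one-term lists -/
def enc {T : Type} (E : Set T) : Set (List T) := {l | ∃ t ∈ E, l = [t]}

/-- union of the closures of the countable subsets -/
def ocl {T : Type} [TopologicalSpace T] (E : Set T) : Set T :=
  {z | ∃ C ⊆ E, C.Countable ∧ z ∈ closure C}

def OClosed {T : Type} [TopologicalSpace T] (G : Set T) : Prop :=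
  ∀ C ⊆ G, C.Countable → closure C ⊆ G

/-- the properties of positive sets that are used -/
structure PosSys {T X : Type} [TopologicalSpace T] (Z : Set T) (e : T → X → ℝ)
    (Pos : Set T → Prop) : Prop where
  p1 : ∀ E ⊆ Z, ¬ Pos E → ∃ G ⊆ Z, OClosed G ∧ Pos G ∧ Disjoint G E
  p2 : ∀ l : List (Set T), (∀ E ∈ l, E ⊆ Z ∧ Pos E) → ∃ z ∈ Z, ∀ E ∈ l, z ∈ ocl E
  p3 : ∀ x, Pos {z ∈ Z | e z x = 0}

def Large {T : Type} (Z : Set T) (Pos : Set T → Prop) : ℕ → Set (List T) → Prop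
  | 0, A => [] ∈ A
  | n + 1, A => Pos {t ∈ Z | Large Z Pos n {l | t :: l ∈ A}}

/-- closure properties of a countable model -/
structure Good {T X W : Type} [TopologicalSpace T] (Z : Set T) (e : T → X → ℝ)
    (Pos : Set T → Prop) (M : Set (U T X W)) : Prop where
  a : ∀ f, U.p f ∈ M → ∀ n, f n ∈ M
  b : ∀ A t, U.s A ∈ M → U.z t ∈ M → U.s {l | t :: l ∈ A} ∈ M
  c : ∀ A n, U.s A ∈ M → U.s (enc {t ∈ Z | Large Z Pos n {l | t :: l ∈ A}}) ∈ M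
  d : ∀ E ⊆ Z, U.s (enc E) ∈ M → ¬ Pos E →
    ∃ G ⊆ Z, OClosed G ∧ Pos G ∧ Disjoint G E ∧ U.s (enc G) ∈ M
  e' : ∀ l : List (Set T), (∀ E ∈ l, E ⊆ Z ∧ Pos E ∧ U.s (enc E) ∈ M) →
    ∃ z ∈ Z, (∀ E ∈ l, z ∈ ocl E) ∧ U.z z ∈ M
  f : ∀ z E, U.z z ∈ M → U.s (enc E) ∈ M → z ∈ ocl E →
    ∃ C ⊆ E, z ∈ closure C ∧ ∀ c ∈ C, U.z c ∈ M
  g : ∀ x, U.x x ∈ M → U.s (enc {z ∈ Z | e z x = 0}) ∈ M

def Phi {T X W : Type} [TopologicalSpace T] (Z : Set T) (Pos : Set T → Prop)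
    (M : Set (U T X W)) : Set T :=
  {z ∈ Z | ∀ E ⊆ Z, U.s (enc E) ∈ M → Pos E → z ∈ closure (E ∩ {t | U.z t ∈ M})}

end Pool.Agent.Helper647.FU
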