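import Pool.Agent.Helper647.FU.Core

set_option autoImplicit false

open Set Cardinal Topology

namespace Pool.Agent.Helper647.FU

section poset

variable {T X W : Type} [TopologicalSpace T] [CompactSpace T] {Z : Set T} {e : T → X → ℝ}
  {Pos : Set T → Prop}

/-- an element at the top of a countable model -/
theorem exists_elt (hZ : OClosed Z) (hbig : ∀ z ∈ Z, ∃ x, 1 ≤ |e z x|)
    {M : Set (U T X W)} (hM : Good Z e Pos M) (hc : M.Countable) :
    ∃ (m : ℕ → U T X W) (z : T) (x : X), range m = M ∧ z ∈ Phi Z Pos M ∧ 1 ≤ |e z x| := by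
  obtain ⟨z0, -, -, hz0⟩ := hM.e' [] (by simp)
  obtain ⟨m, hm⟩ := hc.exists_eq_range ⟨_, hz0⟩
  obtain ⟨z, hz⟩ := J11.Phi_nonempty hZ hM hc
  obtain ⟨x, hx⟩ := hbig z hz.1
  exact ⟨m, z, x, hm.symm, hz, hx⟩

theorem top_ext (hZ : OClosed Z) (hbig : ∀ z ∈ Z, ∃ x, 1 ≤ |e z x|)
    {N : Set (Cond Z e Pos W ⊕ Set (Cond Z e Pos W) ⊕ U T X W)} (hN : NGood Z e Pos N)
    (hNc : N.Countable) (p : Cond Z e Pos W) (hp : Sum.inl p ∈ N) :
    ∃ q : Cond Z e Pos W, q ≤ p ∧ ∃ a ∈ q.1, range a.m = UP N ∧ (p.1 = [] → a.g = none) := by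
  have hUc : (UP N).Countable :=
    hNc.preimage (f := fun u => Sum.inr (Sum.inr u)) (Sum.inr_injective.comp Sum.inr_injective)
  obtain ⟨m, z, x, hm, hz, hx⟩ := exists_elt hZ hbig hN.good hUc
  rcases List.eq_nil_or_concat p.1 with hnil | ⟨l0, b, hl⟩
  · let a : Elt T X W := ⟨m, z, x, none⟩
    refine ⟨⟨[a], ?_, ?_⟩, ?_, a, ?_, hm, fun _ => rfl⟩
    · intro b hb
      rw [List.mem_singleton] at hb
      subst hb
      refine ⟨?_, ?_, hx, ?_⟩
      · change Good Z e Pos (range m); rw [hm]; exact hN.good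
      · change z ∈ Phi Z Pos (range m); rw [hm]; exact hz
      · intro h hh; cases hh
    · exact List.pairwise_singleton _ _
    · change p.1.Sublist [a]
      rw [hnil]; exact List.nil_sublist _
    · exact List.mem_singleton.2 rfl
  · rw [List.concat_eq_append] at hl
    have hb : b ∈ p.1 := by rw [hl]; simp
    have hbv := p.2.1 b hb
    let a : Elt T X W := ⟨m, z, x, some b.m⟩
    have hpw := p.2.2
    rw [hl, List.pairwise_append] at hpw
    refine ⟨⟨p.1 ++ [a], ?_, ?_⟩, ?_, a, ?_, hm, ?_⟩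
    · intro c hc
      rcases List.mem_append.1 hc with hc | hc
      · exact p.2.1 c hc
      · rw [List.mem_singleton] at hc
        subst hc
        refine ⟨?_, ?_, hx, ?_⟩
        · change Good Z e Pos (range m); rw [hm]; exact hN.good
        · change z ∈ Phi Z Pos (range m); rw [hm]; exact hz
        · intro h hh
          have hh' : b.m = h := Option.some.inj hh
          rw [← hh']
          exact hbv.good
    · rw [List.pairwise_append]
      refine ⟨p.2.2, List.pairwise_singleton _ _, ?_⟩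
      intro c hc d hd
      rw [List.mem_singleton] at hd
      subst hd
      refine ⟨?_, Or.inl ⟨b.m, rfl, ?_⟩⟩
      · change code c ∈ range m
        rw [hm]; exact hN.two p hp c hc
      · rw [hl] at hc
        rcases List.mem_append.1 hc with hc | hc
        · exact Or.inr (hpw.2.2 c hc b (by simp)).1
        · rw [List.mem_singleton] at hc
          left; rw [hc]
    · exact List.sublist_append_left _ _
    · exact List.mem_append_right _ (List.mem_singleton.2 rfl)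
    · intro hnil
      rw [hnil] at hb
      exact absurd hb (List.not_mem_nil)

theorem cond_proper (hP : PosSys Z e Pos) (hZ : OClosed Z) (hbig : ∀ z ∈ Z, ∃ x, 1 ≤ |e z x|)
    (he : ∀ x, Continuous fun t => e t x) : Proper (Cond Z e Pos W) := by
  obtain ⟨S0, hS0, hS0'⟩ := J10.good_closure W hP
  obtain ⟨F, hF, hF'⟩ := ngood_closure Z e Pos W S0 hS0 hS0'
  refine ⟨U T X W, F, hF, ?_⟩
  intro N hNc hN p hp
  obtain ⟨q, hqp, a, ha, ham, -⟩ := top_ext hZ hbig (hF' N hN) hNc p hp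
  refine ⟨q, hqp, ?_⟩
  intro D hD hDd r hr
  exact gen (hF' N hN) hNc he ham r (List.Sublist.mem ha hr) D hD hDd

theorem unb (hP : PosSys Z e Pos) (hZ : OClosed Z) (hbig : ∀ z ∈ Z, ∃ x, 1 ≤ |e z x|)
    (he : ∀ x, Continuous fun t => e t x) :
    ∃ p0 : Cond Z e Pos W, ∀ q ≤ p0, ∀ α : W, ∃ r ≤ q, ∃ a ∈ r.1, a.g = none ∧ U.w α ∈ range a.m := by
  classical
  by_contra hcon
  push Not at hcon
  let D0 : Set (Cond Z e Pos W) := {q | ∃ α : W, ∀ r ≤ q, ∀ a ∈ r.1, a.g = none → U.w α ∉ range a.m}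
  have hD0 : ∀ p, ∃ r ∈ D0, r ≤ p := by
    intro p
    obtain ⟨q, hq, α, h⟩ := hcon p
    exact ⟨q, ⟨α, h⟩, hq⟩
  obtain ⟨S0, hS0, hS0'⟩ := J10.good_closure W hP
  obtain ⟨F, hF, hF'⟩ := ngood_closure Z e Pos W S0 hS0 hS0'
  let h : Cond Z e Pos W ⊕ Set (Cond Z e Pos W) ⊕ U T X W →
      Set (Cond Z e Pos W ⊕ Set (Cond Z e Pos W) ⊕ U T X W) := fun b => match b with
    | Sum.inl q => if hq : q ∈ D0 then {Sum.inr (Sum.inr (U.w hq.choose))} else ∅
    | Sum.inr _ => ∅
  let F' : List (Cond Z e Pos W ⊕ Set (Cond Z e Pos W) ⊕ U T X W) →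
      Set (Cond Z e Pos W ⊕ Set (Cond Z e Pos W) ⊕ U T X W) := fun l =>
    F l ∪ ⋃ b ∈ {b | b ∈ l}, h b
  have hF'c : ∀ l, (F' l).Countable := by
    intro l
    refine (hF l).union ((List.finite_toSet l).countable.biUnion ?_)
    intro b _
    rcases b with q | b
    · change (if hq : q ∈ D0 then {Sum.inr (Sum.inr (U.w hq.choose))} else ∅ : Set _).Countable
      split_ifs
      · exact countable_singleton _
      · exact countable_empty
    · exact countable_empty
  obtain ⟨N, hN0, hNc, hN⟩ := J8.closed_exists F' hF'c {Sum.inr (Sum.inl D0)} (countable_singleton _)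
  have hNF : ClosedUnder F N := fun l hl b hb => hN l hl (Or.inl hb)
  have hNg := hF' N hNF
  have hwN : ∀ q (hq : q ∈ D0), Sum.inl q ∈ N → U.w hq.choose ∈ UP N := by
    intro q hq hqN
    refine hN [Sum.inl q] (by simpa using hqN) (Or.inr ?_)
    refine mem_biUnion (x := Sum.inl q) (List.mem_singleton.2 rfl) ?_
    change Sum.inr (Sum.inr (U.w hq.choose)) ∈
      (if hq : q ∈ D0 then {Sum.inr (Sum.inr (U.w hq.choose))} else ∅ : Set _)
    rw [dif_pos hq]
    rfl
  let p0 : Cond Z e Pos W := ⟨[], by simp, List.Pairwise.nil⟩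
  have hp0 : Sum.inl p0 ∈ N := hNg.three p0 (by intro a ha; cases ha)
  obtain ⟨q, -, a, ha, ham, hag⟩ := top_ext hZ hbig hNg hNc p0 hp0
  obtain ⟨s, hsD, hsN, r, hrq, hrs⟩ := gen hNg hNc he ham q ha D0 (hN0 rfl) hD0
  have har : a ∈ r.1 := List.Sublist.mem ha hrq
  have h1 := hsD.choose_spec r hrs a har (hag rfl)
  rw [ham] at h1
  exact h1 (hwN s hsD hsN)

end poset

theorem core (hPFA : PFA) {T Y : Type} [TopologicalSpace T] [CompactSpace T] (Z : Set T) (w : T)
    (e : T → Y → ℝ) (hZ : OClosed Z) (hw : w ∈ closure Z) (he : ∀ y, Continuous fun t => e t y)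
    (hew : ∀ y, e w y = 0) (hbig : ∀ z ∈ Z, ∃ y, 1 ≤ |e z y|) :
    ∃ H : Set (T × Y), ¬ H.Countable ∧ (∀ p ∈ H, 1 ≤ |e p.1 p.2|) ∧
      ∀ p ∈ H, {q ∈ H | ¬ (2 / 3 < |e p.1 q.2| ∧ e q.1 p.2 = 0)}.Countable := by
  classical
  obtain ⟨Pos, hP⟩ := J9.exists_pos Z hZ w hw e he hew
  obtain ⟨p0, hp0⟩ := unb (W := W1) hP hZ hbig he
  let Dd : W1 → Set (Cond Z e Pos W1) := fun α =>
    {q | ¬ Compat q p0 ∨ ∃ a ∈ q.1, a.g = none ∧ U.w α ∈ range a.m}
  obtain ⟨G, hp0G, hGne, hGup, hGdir, hGD⟩ := J7.PFA_below hPFA (Cond Z e Pos W1)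
    (cond_proper hP hZ hbig he) p0 (range Dd) (Cardinal.mk_range_le.trans W1_card) (by
      rintro _ ⟨α, rfl⟩ p
      by_cases hc : Compat p p0
      · obtain ⟨r0, hr0p, hr0⟩ := hc
        obtain ⟨r, hr, a, ha, hag, haα⟩ := hp0 r0 hr0 α
        exact ⟨r, Or.inr ⟨a, ha, hag, haα⟩, hr.trans hr0p⟩
      · exact ⟨p, Or.inl hc, le_rfl⟩)
  let E : Set (Elt T Y W1) := {a | a.g = none ∧ ∃ q ∈ G, a ∈ q.1}
  have hEv : ∀ a ∈ E, Valid Z e Pos a := by
    rintro a ⟨-, q, -, ha⟩
    exact q.2.1 a ha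
  have hrel : ∀ a ∈ E, ∀ b ∈ E, a ≠ b → Rel e a b ∨ Rel e b a := by
    rintro a ⟨-, q, hq, haq⟩ b ⟨-, r, hr, hbr⟩ hab
    obtain ⟨s, hs, hsq, hsr⟩ := hGdir q hq r hr
    have ha : a ∈ s.1 := List.Sublist.mem haq hsq
    have hb : b ∈ s.1 := List.Sublist.mem hbr hsr
    have hpw : s.1.Pairwise fun a b => Rel e a b ∨ Rel e b a :=
      s.2.2.imp (fun h => Or.inl h)
    have : Std.Symm (fun a b : Elt T Y W1 => Rel e a b ∨ Rel e b a) := ⟨fun _ _ h => h.symm⟩
    exact hpw.forall ha hb hab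
  have hzero : ∀ a ∈ E, ∀ b ∈ E, Rel e a b → e b.z a.x = 0 := by
    intro a ha b hb hab
    have hv := hEv b hb
    exact Phi_zero hP hv.good he hv.phi (code_mem Z e Pos hv.good hab.1).2.2
  have hlow : ∀ a ∈ E, ∀ b ∈ E, Rel e a b → 2 / 3 < |e a.z b.x| := by
    intro a ha b hb hab
    refine hab.2.resolve_left ?_
    rintro ⟨h, hh, -⟩
    rw [hb.1] at hh
    cases hh
  have hcode : ∀ a : Elt T Y W1, {b : Elt T Y W1 | code b ∈ range a.m}.Countable := fun a =>
    (countable_range a.m).preimage code_inj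
  have hinj : InjOn (fun a : Elt T Y W1 => (a.z, a.x)) E := by
    intro a ha b hb hab
    by_contra hne
    have h1 : a.z = b.z := congrArg Prod.fst hab
    have h2 : a.x = b.x := congrArg Prod.snd hab
    have h3 := (hEv a ha).big
    have h4 := (hEv b hb).big
    rcases hrel a ha b hb hne with h | h
    · have h5 := hzero a ha b hb h
      rw [← h1] at h5
      rw [h5, abs_zero] at h3
      linarith
    · have h5 := hzero b hb a ha h
      rw [h1] at h5
      rw [h5, abs_zero] at h4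
      linarith
  refine ⟨(fun a : Elt T Y W1 => (a.z, a.x)) '' E, ?_, ?_, ?_⟩
  · intro hc
    have hEc : E.Countable := Set.countable_of_injective_of_countable_image hinj hc
    apply W1_hu
    rw [← Set.countable_univ_iff]
    have h1 : ∀ a : Elt T Y W1, {α : W1 | U.w α ∈ range a.m}.Countable := fun a =>
      (countable_range a.m).preimage (f := U.w) (fun α β h => U.w.inj h)
    refine (hEc.biUnion fun a _ => h1 a).mono ?_
    intro α _
    obtain ⟨q, hqG, hqD⟩ := hGD (Dd α) ⟨α, rfl⟩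
    have hcomp : Compat q p0 := by
      obtain ⟨s, -, hsq, hsp⟩ := hGdir q hqG p0 hp0G
      exact ⟨s, hsq, hsp⟩
    obtain ⟨a, ha, hag, haα⟩ := hqD.resolve_left (not_not.2 hcomp)
    exact mem_biUnion (show a ∈ E from ⟨hag, q, hqG, ha⟩) haα
  · rintro _ ⟨a, ha, rfl⟩
    exact (hEv a ha).big
  · rintro _ ⟨a, ha, rfl⟩
    refine (((hcode a).image fun b => (b.z, b.x)).insert (a.z, a.x)).mono ?_
    rintro _ ⟨⟨b, hb, rfl⟩, hn⟩
    by_cases hab : a = b
    · left; rw [hab]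
    · right
      rcases hrel a ha b hb hab with h | h
      · exact absurd ⟨hlow a ha b hb h, hzero a ha b hb h⟩ hn
      · exact ⟨b, h.1, rfl⟩

theorem pfa_tight (hPFA : PFA) {X : Type} [TopologicalSpace X] [T1Space X]
    (hX : CountableExtent X)
    (K : Set (X → ℝ)) (hK : IsCompact K) (hKc : ∀ f ∈ K, Continuous f) : CTight K :=
  J14.tightness hX (fun Z w e hZ hw he hew hbig => core hPFA Z w e hZ hw he hew hbig)
    (fun hY e he he' H hH h1 h2 => J13.zfc_final W1_hc W1_hu hY e he he' H hH h1 h2) K hK hKc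

theorem pfa_frechet (hPFA : PFA) {X : Type} [TopologicalSpace X] [T1Space X]
    (hX : CountableExtent X)
    (K : Set (X → ℝ)) (hK : IsCompact K) (hKc : ∀ f ∈ K, Continuous f) :
    FrechetUrysohnSpace K :=
  frechet (J8.MA1_of_PFA hPFA) hX K hK hKc (pfa_tight hPFA hX K hK hKc)

end Pool.Agent.Helper647.FU
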