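import Pool.Agent.Helper647.FU.Defs

set_option autoImplicit false

open Set Cardinal Topology

namespace Pool.Agent.Helper647.FU.J1

/-- closures of countable subsets stay inside -/
def OmClosed {T : Type*} [TopologicalSpace T] (B : Set T) : Prop :=
  ∀ C ⊆ B, C.Countable → closure C ⊆ B

theorem OmClosed.isClosed {T : Type*} [TopologicalSpace T] (hT : CTight T) {B : Set T}
    (hB : OmClosed B) : IsClosed B := by
  refine isClosed_of_closure_subset (fun x hx => ?_)
  obtain ⟨C, hC, hCc, hxC⟩ := hT B x hx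
  exact hB C hC hCc hxC

theorem OmClosed.prod_isClosed {S T : Type*} [TopologicalSpace S] [TopologicalSpace T]
    [CompactSpace S] [CompactSpace T] [T2Space S] [T2Space T] (hS : CTight S) (hT : CTight T)
    {B : Set (S × T)} (hB : OmClosed B) : IsClosed B := by
  refine isClosed_of_closure_subset (fun x hx => ?_)
  by_contra hxB
  obtain ⟨k, l⟩ := x
  -- slice
  have hL : OmClosed {t : T | (k, t) ∈ B} := by
    intro C hC hCc t ht
    have h1 : (fun t : T => (k, t)) '' C ⊆ B := by
      rintro _ ⟨t, ht, rfl⟩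
      exact hC ht
    have h2 := hB _ h1 (hCc.image _)
    apply h2
    have hcont : Continuous (fun t : T => (k, t)) := by fun_prop
    exact image_closure_subset_closure_image hcont ⟨t, ht, rfl⟩
  have hLc : IsClosed {t : T | (k, t) ∈ B} := hL.isClosed hT
  have hl : {t : T | (k, t) ∈ B}ᶜ ∈ 𝓝 l := hLc.isOpen_compl.mem_nhds hxB
  obtain ⟨V, hVl, hVc, hVs⟩ := exists_mem_nhds_isClosed_subset hl
  set B1 : Set (S × T) := B ∩ Prod.snd ⁻¹' V with hB1
  have hVc' : IsClosed (Prod.snd ⁻¹' V : Set (S × T)) := hVc.preimage continuous_snd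
  have hB1o : OmClosed B1 := by
    intro C hC hCc
    refine subset_inter (hB C (hC.trans inter_subset_left) hCc) ?_
    exact closure_minimal (hC.trans inter_subset_right) hVc'
  have hkl : (k, l) ∈ closure B1 := by
    rw [mem_closure_iff_nhds] at hx ⊢
    intro u hu
    have h3 : (Prod.snd ⁻¹' V : Set (S × T)) ∈ 𝓝 (k, l) := continuous_snd.continuousAt hVl
    obtain ⟨y, hy1, hy2⟩ := hx (u ∩ Prod.snd ⁻¹' V) (Filter.inter_mem hu h3)
    exact ⟨y, hy1.1, hy2, hy1.2⟩
  have hI : OmClosed (Prod.fst '' B1) := by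
    intro C hC hCc
    have h4 : ∀ c : S, ∃ p : S × T, c ∈ C → p ∈ B1 ∧ p.1 = c := by
      intro c
      by_cases hc : c ∈ C
      · obtain ⟨p, hp, hpc⟩ := hC hc
        exact ⟨p, fun _ => ⟨hp, hpc⟩⟩
      · exact ⟨(k, l), fun h => absurd h hc⟩
    choose p hp using h4
    have h5 : p '' C ⊆ B1 := by
      rintro _ ⟨c, hc, rfl⟩
      exact (hp c hc).1
    have h6 := hB1o _ h5 (hCc.image _)
    have h7 : IsClosed (Prod.fst '' closure (p '' C)) :=
      (isClosed_closure.isCompact.image continuous_fst).isClosed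
    have h8 : C ⊆ Prod.fst '' closure (p '' C) := by
      intro c hc
      exact ⟨p c, subset_closure ⟨c, hc, rfl⟩, (hp c hc).2⟩
    exact (closure_minimal h8 h7).trans (image_mono h6)
  have hIc : IsClosed (Prod.fst '' B1) := hI.isClosed hS
  have hk : k ∈ closure (Prod.fst '' B1) :=
    image_closure_subset_closure_image continuous_fst ⟨(k, l), hkl, rfl⟩
  rw [hIc.closure_eq] at hk
  obtain ⟨⟨k', t⟩, ht, hk'⟩ := hk
  simp only at hk'
  subst hk'
  exact hVs ht.2 ht.1

theorem CTight.prod {S T : Type*} [TopologicalSpace S] [TopologicalSpace T] [CompactSpace S]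
    [CompactSpace T] [T2Space S] [T2Space T] (hS : CTight S) (hT : CTight T) : CTight (S × T) := by
  intro A x hx
  set B : Set (S × T) := {p | ∃ C ⊆ A, C.Countable ∧ p ∈ closure C} with hB
  have hBo : OmClosed B := by
    intro C hC hCc
    have h1 : ∀ p : S × T, ∃ D : Set (S × T), p ∈ C → D ⊆ A ∧ D.Countable ∧ p ∈ closure D := by
      intro p
      by_cases hp : p ∈ C
      · obtain ⟨D, hD⟩ := hC hp
        exact ⟨D, fun _ => hD⟩
      · exact ⟨∅, fun h => absurd h hp⟩
    choose D hD using h1
    intro y hy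
    refine ⟨⋃ p ∈ C, D p, ?_, ?_, ?_⟩
    · exact iUnion₂_subset (fun p hp => (hD p hp).1)
    · exact hCc.biUnion (fun p hp => (hD p hp).2.1)
    · have h2 : C ⊆ closure (⋃ p ∈ C, D p) := by
        intro p hp
        exact closure_mono (subset_biUnion_of_mem (u := D) hp) (hD p hp).2.2
      exact closure_minimal h2 isClosed_closure hy
  have hBc : IsClosed B := hBo.prod_isClosed hS hT
  have hAB : A ⊆ B := fun a ha => ⟨{a}, by simpa using ha, countable_singleton a,
    subset_closure (mem_singleton a)⟩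
  exact closure_minimal hAB hBc hx

theorem CTight.of_homeo {X Y : Type*} [TopologicalSpace X] [TopologicalSpace Y] (e : X ≃ₜ Y)
    (h : CTight X) : CTight Y := by
  intro A y hy
  have h1 : e.symm y ∈ closure (e.symm '' A) := by
    rw [← e.symm.image_closure]
    exact ⟨y, hy, rfl⟩
  obtain ⟨B, hB, hBc, hyB⟩ := h _ _ h1
  refine ⟨e '' B, ?_, hBc.image _, ?_⟩
  · rintro _ ⟨b, hb, rfl⟩
    obtain ⟨a, ha, hab⟩ := hB hb
    rw [← hab]
    simpa using ha
  · rw [← e.image_closure]
    exact ⟨e.symm y, hyB, by simp⟩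

theorem CTight.pi {T : Type*} [TopologicalSpace T] [CompactSpace T] [T2Space T] (hT : CTight T) (n : ℕ) :
    CTight (Fin n → T) := by
  induction n with
  | zero =>
    intro A x hx
    have hne : A.Nonempty := closure_nonempty_iff.1 ⟨x, hx⟩
    obtain ⟨a, ha⟩ := hne
    refine ⟨{a}, by simpa using ha, countable_singleton a, ?_⟩
    have : x = a := Subsingleton.elim _ _
    rw [this]
    exact subset_closure (mem_singleton a)
  | succ n ih =>
    have h1 : CTight (Fin 1 → T) := CTight.of_homeo (Homeomorph.funUnique (Fin 1) T).symm hT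
    exact CTight.of_homeo (Fin.appendHomeomorph (X := T) n 1) (CTight.prod ih h1)

end Pool.Agent.Helper647.FU.J1
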