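import Pool.Agent.Helper647.FU.Defs

set_option autoImplicit false

open Set Cardinal Topology

namespace Pool.Agent.Helper647.FU.J15

universe u

theorem frechet {X : Type u} [TopologicalSpace X]
    (separating : ∀ {T : Type u} [TopologicalSpace T] [CompactSpace T] [T2Space T], CTight T →
      ∀ (e : T → X → ℝ), (∀ x, Continuous fun t => e t x) → (∀ t, Continuous (e t)) →
      ∀ (a : ℕ → T), DenseRange a →
      ∃ C : Set X, C.Countable ∧ ∀ s t : T, (∀ x ∈ C, e s x = e t x) → ∀ x, e s x = e t x)
    (K : Set (X → ℝ)) (hK : IsCompact K) (hKc : ∀ f ∈ K, Continuous f) (hT : CTight K) :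
    FrechetUrysohnSpace K := by
  have hKs : CompactSpace K := isCompact_iff_compactSpace.1 hK
  refine ⟨fun A w hw => ?_⟩
  obtain ⟨B, hBA, hBc, hwB⟩ := hT A w hw
  have hBne : B.Nonempty := by
    rw [← closure_nonempty_iff]
    exact ⟨w, hwB⟩
  have hTc : CompactSpace (closure B) :=
    isCompact_iff_compactSpace.1 (isClosed_closure.isCompact)
  have hTt : CTight (closure B) := by
    intro A' x hx
    have h1 : (x : K) ∈ closure (Subtype.val '' A') := by
      rw [← closure_subtype]
      exact hx
    obtain ⟨B', hB1, hB2, hB3⟩ := hT _ _ h1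
    obtain ⟨u, hu, rfl⟩ := Set.subset_image_iff.1 hB1
    refine ⟨u, hu, ?_, ?_⟩
    · exact Set.countable_of_injective_of_countable_image Subtype.val_injective.injOn hB2
    · rw [closure_subtype]
      exact hB3
  obtain ⟨f, hf⟩ := hBc.exists_eq_range hBne
  have hfB : ∀ n, f n ∈ B := fun n => by rw [hf]; exact Set.mem_range_self n
  have hdense : DenseRange (fun n : ℕ => (⟨f n, subset_closure (hfB n)⟩ : closure B)) := by
    intro x
    rw [closure_subtype]
    have h2 : Subtype.val '' (Set.range (fun n : ℕ => (⟨f n, subset_closure (hfB n)⟩ :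
        closure B))) = B := by
      rw [← Set.range_comp]
      exact hf.symm
    rw [h2]
    exact x.2
  obtain ⟨C, hC, hsep⟩ := separating hTt (fun t x => (t.val.val : X → ℝ) x)
    (fun x => (continuous_apply x).comp (continuous_subtype_val.comp continuous_subtype_val))
    (fun t => hKc _ t.val.2) _ hdense
  have hCc : Countable C := hC.to_subtype
  obtain ⟨r, hr⟩ : ∃ r : closure B → (C → ℝ), ∀ t c, r t c = (t.val.val : X → ℝ) c :=
    ⟨fun t c => (t.val.val : X → ℝ) c, fun _ _ => rfl⟩
  have hrc : Continuous r := by
    refine continuous_pi ?_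
    intro c
    simp_rw [hr]
    exact (continuous_apply (c : X)).comp (continuous_subtype_val.comp continuous_subtype_val)
  have hri : Function.Injective r := by
    intro s t hst
    apply Subtype.ext
    apply Subtype.ext
    funext x
    refine hsep s t ?_ x
    intro y hy
    have := congrFun hst ⟨y, hy⟩
    rwa [hr, hr] at this
  have hemb := hrc.isClosedEmbedding hri
  have hfc : FirstCountableTopology (closure B) := hemb.isInducing.firstCountableTopology
  have hw' : (⟨w, hwB⟩ : closure B) ∈ closure (Subtype.val ⁻¹' B : Set (closure B)) := by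
    rw [closure_subtype]
    have h3 : Subtype.val '' (Subtype.val ⁻¹' B : Set (closure B)) = B := by
      rw [Subtype.image_preimage_coe]
      exact Set.inter_eq_right.2 subset_closure
    rw [h3]
    exact hwB
  obtain ⟨x, hx1, hx2⟩ := mem_closure_iff_seq_limit.1 hw'
  refine ⟨fun n => (x n).val, fun n => hBA (hx1 n), ?_⟩
  have h4 := (continuous_subtype_val.tendsto (⟨w, hwB⟩ : closure B)).comp hx2
  exact h4

end Pool.Agent.Helper647.FU.J15
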