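import Pool.Agent.Helper647.FU.Defs

set_option autoImplicit false

open Set Cardinal Topology

namespace Pool.Agent.Helper647.FU.J2

theorem blocks2 {W : Type} [LinearOrder W] [WellFoundedLT W]
    (hc : ∀ a : W, (Iio a).Countable) (hu : ¬ Countable W)
    {T : Type*} [TopologicalSpace T] [CompactSpace T] {X : Type*}
    (e : T → X → ℝ) (he : ∀ x, Continuous fun t => e t x)
    (s t : W → T) (x : W → X) (hl : ∀ i j, j < i → e (s i) (x j) = e (t i) (x j))
    (δ : ℝ) (hδ : 0 < δ) (n : ℕ) (ht : CTight (Fin n → T × T))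
    (q : W → Fin n → W) (hq : ∀ i j, i < j → ∀ k l, q i k < q j l) :
    ∃ i j, i < j ∧ ∀ k l, |e (s (q i k)) (x (q j l)) - e (t (q i k)) (x (q j l))| < δ := by
  obtain ⟨D, hD⟩ : ∃ D : W → (Fin n → T × T), D = fun i k => (s (q i k), t (q i k)) := ⟨_, rfl⟩
  have hIic : ∀ a : W, (Iic a).Countable := by
    intro a
    rw [← Iio_insert]
    exact (hc a).insert a
  -- complete accumulation point
  obtain ⟨c, hcc⟩ : ∃ c : Fin n → T × T, ∀ U ∈ 𝓝 c, ¬ {i | D i ∈ U}.Countable := by
    by_contra hcon
    push Not at hcon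
    choose U hU hUc using hcon
    obtain ⟨F, _, hF⟩ := isCompact_univ.elim_nhds_subcover U (fun z _ => hU z)
    apply hu
    rw [← Set.countable_univ_iff]
    refine (F.countable_toSet.biUnion fun z _ => hUc z).mono ?_
    intro i _
    have h1 := hF (mem_univ (D i))
    rw [mem_iUnion₂] at h1
    obtain ⟨z, hz, hzi⟩ := h1
    exact mem_biUnion hz hzi
  -- bounds of countable sets
  have hbd : ∀ A : Set W, A.Countable → ∃ b, ∀ a ∈ A, a < b := by
    intro A hA
    by_contra hcon
    push Not at hcon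
    apply hu
    rw [← Set.countable_univ_iff]
    refine (hA.biUnion fun a _ => hIic a).mono ?_
    intro b _
    obtain ⟨a, ha, hab⟩ := hcon b
    exact mem_biUnion ha hab
  have hq1 : ∀ (i : W) (k : Fin n), i ≤ q i k := by
    intro i k
    have hm : StrictMono (fun i => q i k) := fun i j hij => hq i j hij k k
    exact hm.le_apply
  have hcont1 : ∀ (k : Fin n) (y : X), Continuous fun d : Fin n → T × T => e (d k).1 y :=
    fun k y => (he y).comp (continuous_fst.comp (continuous_apply k))
  have hcont2 : ∀ (k : Fin n) (y : X), Continuous fun d : Fin n → T × T => e (d k).2 y :=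
    fun k y => (he y).comp (continuous_snd.comp (continuous_apply k))
  have heq : ∀ (m : W) (k : Fin n), e (c k).1 (x m) = e (c k).2 (x m) := by
    intro m k
    by_contra hne
    have hop : IsOpen {d : Fin n → T × T | e (d k).1 (x m) ≠ e (d k).2 (x m)} :=
      isOpen_ne_fun (hcont1 k (x m)) (hcont2 k (x m))
    have h1 := hcc _ (hop.mem_nhds hne)
    apply h1
    refine (hIic m).mono ?_
    intro i hi
    rw [mem_Iic]
    by_contra hmi
    rw [not_le] at hmi
    apply hi
    simp only [hD]
    exact hl (q i k) m (lt_of_lt_of_le hmi (hq1 i k))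
  have hcl : c ∈ closure (range D) := by
    rw [mem_closure_iff_nhds]
    intro U hU
    have h1 := hcc U hU
    obtain ⟨i, hi⟩ : {i | D i ∈ U}.Nonempty := by
      rw [Set.nonempty_iff_ne_empty]
      intro h2
      rw [h2] at h1
      exact h1 countable_empty
    exact ⟨D i, hi, mem_range_self i⟩
  obtain ⟨B, hB, hBc, hcB⟩ := ht (range D) c hcl
  have hg : ∀ d : B, ∃ i, D i = d := fun d => hB d.2
  choose g hg using hg
  haveI : Countable B := hBc.to_subtype
  obtain ⟨b, hb⟩ := hbd (range g) (countable_range g)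
  have hV : IsOpen {d : Fin n → T × T | ∀ k l, |e (d k).1 (x (q b l)) - e (d k).2 (x (q b l))| < δ} := by
    simp only [setOf_forall]
    refine isOpen_iInter_of_finite fun k => isOpen_iInter_of_finite fun l => ?_
    exact isOpen_lt ((hcont1 k _).sub (hcont2 k _)).abs continuous_const
  have hcV : c ∈ {d : Fin n → T × T | ∀ k l, |e (d k).1 (x (q b l)) - e (d k).2 (x (q b l))| < δ} := by
    intro k l
    rw [heq, sub_self, abs_zero]
    exact hδ
  obtain ⟨d, hdV, hdB⟩ := mem_closure_iff.mp hcB _ hV hcV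
  refine ⟨g ⟨d, hdB⟩, b, hb _ (mem_range_self _), fun k l => ?_⟩
  have h1 := hdV k l
  have h2 : D (g ⟨d, hdB⟩) = d := hg ⟨d, hdB⟩
  rw [← h2, hD] at h1
  exact h1

end Pool.Agent.Helper647.FU.J2
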