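import Pool.Agent.Helper647.FU.Defs

set_option autoImplicit false

open Set Cardinal Topology

namespace Pool.Agent.Helper647.FU.J3

section order

variable {W : Type} [LinearOrder W] [WellFoundedLT W]

theorem exists_bound (hc : ∀ a : W, (Iio a).Countable) (hu : ¬ Countable W)
    {A : Set W} (hA : A.Countable) : ∃ b, ∀ a ∈ A, a < b := by
  by_contra h
  push Not at h
  apply hu
  rw [← Set.countable_univ_iff]
  have hsub : (univ : Set W) ⊆ ⋃ a ∈ A, Iic a := by
    intro x _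
    obtain ⟨a, haA, hxa⟩ := h x
    exact mem_biUnion haA hxa
  refine (hA.biUnion ?_).mono hsub
  intro a _
  rw [← Iio_insert]
  exact (hc a).insert a

theorem rec_seq {T : Type*} (hc : ∀ a : W, (Iio a).Countable)
    (good : Set T → T → Prop) (hg : ∀ B : Set T, B.Countable → ∃ t, good B t) :
    ∃ p : W → T, ∀ i, good (p '' Iio i) (p i) := by
  classical
  have key : ∀ (i : W) (f : (j : W) → j < i → T),
      ∃ t, good (Set.range (fun j : Iio i => f j.1 j.2)) t := by
    intro i f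
    have : Countable (Iio i) := (hc i).to_subtype
    exact hg _ (countable_range _)
  let F : (i : W) → ((j : W) → j < i → T) → T := fun i f => Classical.choose (key i f)
  have hF : ∀ (i : W) (f : (j : W) → j < i → T),
      good (Set.range (fun j : Iio i => f j.1 j.2)) (F i f) :=
    fun i f => Classical.choose_spec (key i f)
  let p : W → T := (wellFounded_lt (α := W)).fix F
  have hp : ∀ i, p i = F i (fun j _ => p j) := fun i => (wellFounded_lt (α := W)).fix_eq F i
  refine ⟨p, fun i => ?_⟩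
  have h1 := hF i (fun j _ => p j)
  rw [← hp i] at h1
  have h2 : Set.range (fun j : Iio i => p j.1) = p '' Iio i := by
    ext t
    constructor
    · rintro ⟨⟨j, hj⟩, rfl⟩
      exact ⟨j, hj, rfl⟩
    · rintro ⟨j, hj, rfl⟩
      exact ⟨⟨j, hj⟩, rfl⟩
  rw [← h2]
  exact h1

/-- The compatible finite sets. -/
def OK (R : W → W → Prop) (E : Finset W) : Prop :=
  ∀ η ∈ E, ∀ ξ ∈ E, η < ξ → R η ξ

/-- There is no uncountable family of pairwise incompatible finite sets of a fixed size. -/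
theorem no_antichain (hc : ∀ a : W, (Iio a).Countable) (hu : ¬ Countable W)
    (R : W → W → Prop)
    (hb : ∀ (n : ℕ) (q : W → Fin (n + 1) → W), (∀ i j, i < j → ∀ k l, q i k < q j l) →
      ∃ i j, i < j ∧ ∀ k l, R (q i k) (q j l)) (n : ℕ) :
    ∀ 𝒜 : Set (Finset W), (∀ E ∈ 𝒜, E.card = n) → (∀ E ∈ 𝒜, OK R E) →
      (∀ E ∈ 𝒜, ∀ E' ∈ 𝒜, E ≠ E' → ¬ OK R (E ∪ E')) → 𝒜.Countable := by
  classical
  induction n with
  | zero =>
    intro 𝒜 h1 _ _
    refine (Set.countable_singleton (∅ : Finset W)).mono ?_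
    intro E hE
    exact Finset.card_eq_zero.mp (h1 E hE)
  | succ n ih =>
    intro 𝒜 h1 h2 h3
    by_contra hunc
    -- each point lies in countably many members
    have hpt : ∀ w : W, {E ∈ 𝒜 | w ∈ E}.Countable := by
      intro w
      have hinj : Set.InjOn (fun E : Finset W => E.erase w) {E ∈ 𝒜 | w ∈ E} := by
        intro E hE E' hE' hEE'
        have h4 : E.erase w = E'.erase w := hEE'
        rw [← Finset.insert_erase hE.2, ← Finset.insert_erase hE'.2, h4]
      have h5 : ((fun E : Finset W => E.erase w) '' {E ∈ 𝒜 | w ∈ E}).Countable := by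
        apply ih
        · rintro _ ⟨E, hE, rfl⟩
          simp only [Finset.card_erase_of_mem hE.2, h1 E hE.1, Nat.add_sub_cancel]
        · rintro _ ⟨E, hE, rfl⟩ η hη ξ hξ hlt
          exact h2 E hE.1 η (Finset.mem_of_mem_erase hη) ξ (Finset.mem_of_mem_erase hξ) hlt
        · rintro _ ⟨E, hE, rfl⟩ _ ⟨E', hE', rfl⟩ hne hOK
          have hne' : E ≠ E' := by
            rintro rfl
            exact hne rfl
          apply h3 E hE.1 E' hE'.1 hne'
          intro η hη ξ hξ hlt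
          by_cases h6 : η ∈ E ∧ ξ ∈ E
          · exact h2 E hE.1 η h6.1 ξ h6.2 hlt
          by_cases h7 : η ∈ E' ∧ ξ ∈ E'
          · exact h2 E' hE'.1 η h7.1 ξ h7.2 hlt
          have hηw : η ≠ w := by
            rintro rfl
            rcases Finset.mem_union.mp hξ with h8 | h8
            · exact h6 ⟨hE.2, h8⟩
            · exact h7 ⟨hE'.2, h8⟩
          have hξw : ξ ≠ w := by
            rintro rfl
            rcases Finset.mem_union.mp hη with h8 | h8
            · exact h6 ⟨h8, hE.2⟩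
            · exact h7 ⟨h8, hE'.2⟩
          refine hOK η ?_ ξ ?_ hlt
          · simp only [Finset.mem_union, Finset.mem_erase]
            rcases Finset.mem_union.mp hη with h8 | h8
            · exact Or.inl ⟨hηw, h8⟩
            · exact Or.inr ⟨hηw, h8⟩
          · simp only [Finset.mem_union, Finset.mem_erase]
            rcases Finset.mem_union.mp hξ with h8 | h8
            · exact Or.inl ⟨hξw, h8⟩
            · exact Or.inr ⟨hξw, h8⟩
      exact Set.countable_of_injective_of_countable_image hinj h5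
    -- choose an increasing sequence
    have hgood : ∀ B : Set 𝒜, B.Countable → ∃ E : 𝒜, ∀ E' ∈ B, ∀ η ∈ E'.1, ∀ ξ ∈ E.1, η < ξ := by
      intro B hB
      have hU : (⋃ E' ∈ B, (E'.1 : Set W)).Countable :=
        hB.biUnion (fun E' _ => E'.1.countable_toSet)
      obtain ⟨b, hb⟩ := exists_bound hc hu hU
      have hbad : (⋃ w ∈ Iio b, {E ∈ 𝒜 | w ∈ E}).Countable :=
        (hc b).biUnion (fun w _ => hpt w)
      obtain ⟨E, hE, hEb⟩ : ∃ E ∈ 𝒜, E ∉ ⋃ w ∈ Iio b, {E ∈ 𝒜 | w ∈ E} := by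
        by_contra hno
        push Not at hno
        exact hunc (hbad.mono hno)
      refine ⟨⟨E, hE⟩, fun E' hE' η hη ξ hξ => ?_⟩
      have h4 : η < b := hb η (mem_biUnion hE' hη)
      have h5 : ¬ ξ < b := by
        intro h6
        exact hEb (mem_biUnion h6 ⟨hE, hξ⟩)
      exact h4.trans_le (not_lt.mp h5)
    obtain ⟨p, hp⟩ := rec_seq (W := W) hc
      (fun (B : Set 𝒜) (E : 𝒜) => ∀ E' ∈ B, ∀ η ∈ E'.1, ∀ ξ ∈ E.1, η < ξ) hgood
    have hlt : ∀ i j, i < j → ∀ η ∈ (p i).1, ∀ ξ ∈ (p j).1, η < ξ :=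
      fun i j hij => hp j (p i) (mem_image_of_mem p hij)
    have hne : ∀ i, (p i).1.Nonempty := fun i => by
      rw [← Finset.card_pos, h1 _ (p i).2]
      exact Nat.succ_pos n
    obtain ⟨i, j, hij, hR⟩ := hb n (fun i k => (p i).1.orderEmbOfFin (h1 _ (p i).2) k)
      (fun i j hij k l => hlt i j hij _ (Finset.orderEmbOfFin_mem _ _ _) _
        (Finset.orderEmbOfFin_mem _ _ _))
    have hnij : (p i).1 ≠ (p j).1 := by
      intro h
      obtain ⟨ξ, hξ⟩ := hne i
      exact lt_irrefl ξ (hlt i j hij ξ hξ ξ (h ▸ hξ))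
    have h4 := h3 _ (p i).2 _ (p j).2 hnij
    apply h4
    intro η hη ξ hξ hηξ
    by_contra h5
    have hcase : η ∈ (p i).1 ∧ ξ ∈ (p j).1 := by
      rcases Finset.mem_union.mp hη with h6 | h6 <;> rcases Finset.mem_union.mp hξ with h7 | h7
      · exact absurd (h2 _ (p i).2 η h6 ξ h7 hηξ) h5
      · exact ⟨h6, h7⟩
      · exact absurd (hlt i j hij ξ h7 η h6) (lt_asymm hηξ)
      · exact absurd (h2 _ (p j).2 η h6 ξ h7 hηξ) h5
    have e1 : η ∈ Set.range ((p i).1.orderEmbOfFin (h1 _ (p i).2)) := by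
      rw [Finset.range_orderEmbOfFin]; exact hcase.1
    have e2 : ξ ∈ Set.range ((p j).1.orderEmbOfFin (h1 _ (p j).2)) := by
      rw [Finset.range_orderEmbOfFin]; exact hcase.2
    obtain ⟨k, hk⟩ := e1
    obtain ⟨l, hl⟩ := e2
    have h6 := hR k l
    rw [hk, hl] at h6
    exact h5 h6

theorem homog (hMA : MA1) (hc : ∀ a : W, (Iio a).Countable) (hu : ¬ Countable W) (hW : #W ≤ ℵ₁)
    (R : W → W → Prop)
    (hb : ∀ (n : ℕ) (q : W → Fin (n + 1) → W), (∀ i j, i < j → ∀ k l, q i k < q j l) →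
      ∃ i j, i < j ∧ ∀ k l, R (q i k) (q j l)) :
    ∃ S : Set W, ¬ S.Countable ∧ ∀ η ∈ S, ∀ ξ ∈ S, η < ξ → R η ξ := by
  classical
  -- the poset
  let P : Type := {E : (Finset W)ᵒᵈ // OK R (OrderDual.ofDual E)}
  have hccc : CCC P := by
    intro 𝒜 h𝒜
    let cv : P → Finset W := fun q => OrderDual.ofDual q.1
    have hcv : Function.Injective cv := fun a b h => Subtype.ext (OrderDual.ofDual.injective h)
    have h1 : ∀ n : ℕ, {E ∈ cv '' 𝒜 | E.card = n}.Countable := by
      intro n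
      apply no_antichain hc hu R hb n
      · intro E hE
        exact hE.2
      · rintro _ ⟨⟨q, _, rfl⟩, _⟩
        exact q.2
      · rintro _ ⟨⟨q, hq, rfl⟩, _⟩ _ ⟨⟨q', hq', rfl⟩, _⟩ hne hOK
        have hne' : q ≠ q' := by
          rintro rfl
          exact hne rfl
        apply h𝒜 q hq q' hq' hne'
        refine ⟨⟨OrderDual.toDual (cv q ∪ cv q'), hOK⟩, ?_, ?_⟩
        · exact Finset.subset_union_left
        · exact Finset.subset_union_right
    have h2 : (cv '' 𝒜).Countable := by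
      refine (Set.countable_iUnion h1).mono ?_
      intro E hE
      exact mem_iUnion.mpr ⟨E.card, hE, rfl⟩
    exact Set.countable_of_injective_of_countable_image hcv.injOn h2
  have hmem : ∀ q r : P, q ≤ r → ∀ ξ ∈ OrderDual.ofDual r.1, ξ ∈ OrderDual.ofDual q.1 :=
    fun q r h => h
  -- a condition forcing the generic to be unbounded
  have hp0 : ∃ p0 : P, ∀ α : W, ∀ q ≤ p0, ∃ r ≤ q, ∃ ξ ∈ OrderDual.ofDual r.1, α < ξ := by
    by_contra hno
    push Not at hno
    choose a Q hQ1 hQ2 using hno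
    let sg : W → P := fun ξ => ⟨OrderDual.toDual {ξ}, by
      intro η hη ξ' hξ' hlt
      have h1 : η = ξ := by simpa using hη
      have h2 : ξ' = ξ := by simpa using hξ'
      rw [h1, h2] at hlt
      exact absurd hlt (lt_irrefl _)⟩
    have hsg : ∀ ξ, ξ ∈ OrderDual.ofDual (Q (sg ξ)).1 := fun ξ =>
      hmem _ _ (hQ1 (sg ξ)) ξ (Finset.mem_singleton_self ξ)
    obtain ⟨t, ht⟩ := rec_seq (W := W) hc
      (fun (B : Set W) (t : W) => ∀ η ∈ B, a (sg η) < t) (by
        intro B hB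
        obtain ⟨b, hb⟩ := exists_bound hc hu (hB.image (fun η => a (sg η)))
        exact ⟨b, fun η hη => hb _ (mem_image_of_mem _ hη)⟩)
    have ht' : ∀ j i, j < i → a (sg (t j)) < t i := fun j i hji => ht i (t j) (mem_image_of_mem t hji)
    have hinc : ∀ j i, j < i → ¬ ∃ r : P, r ≤ Q (sg (t j)) ∧ r ≤ Q (sg (t i)) := by
      rintro j i hji ⟨r, hr1, hr2⟩
      exact hQ2 (sg (t j)) r hr1 (t i) (hmem _ _ hr2 _ (hsg (t i))) |>.not_gt (ht' j i hji)
    have hinj : Function.Injective (fun i => Q (sg (t i))) := by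
      intro i j hij
      have hij' : Q (sg (t i)) = Q (sg (t j)) := hij
      rcases lt_trichotomy i j with h | h | h
      · exact absurd ⟨Q (sg (t i)), le_rfl, hij'.le⟩ (hinc i j h)
      · exact h
      · exact absurd ⟨Q (sg (t i)), hij'.le, le_rfl⟩ (hinc j i h)
    have hcount := hccc (range (fun i => Q (sg (t i)))) (by
      rintro _ ⟨i, rfl⟩ _ ⟨j, rfl⟩ hne
      have hij : i ≠ j := by
        rintro rfl
        exact hne rfl
      rcases lt_or_gt_of_ne hij with h | h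
      · exact hinc i j h
      · rintro ⟨r, hr1, hr2⟩
        exact hinc j i h ⟨r, hr2, hr1⟩)
    apply hu
    have h1 : Countable (range (fun i => Q (sg (t i)))) := hcount.to_subtype
    exact (Equiv.ofInjective _ hinj).countable_iff.mpr h1
  obtain ⟨p0, hp0⟩ := hp0
  let P' : Type := {q : P // q ≤ p0}
  have hne' : Nonempty P' := ⟨⟨p0, le_rfl⟩⟩
  have hccc' : CCC P' := by
    intro 𝒜 h𝒜
    have h1 := hccc (Subtype.val '' 𝒜) (by
      rintro _ ⟨q, hq, rfl⟩ _ ⟨q', hq', rfl⟩ hne ⟨r, hr1, hr2⟩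
      refine h𝒜 q hq q' hq' (fun h => hne (by rw [h])) ⟨⟨r, hr1.trans q.2⟩, hr1, hr2⟩)
    exact Set.countable_of_injective_of_countable_image Subtype.val_injective.injOn h1
  let Dn : W → Set P' := fun α => {q | ∃ ξ ∈ OrderDual.ofDual q.1.1, α < ξ}
  obtain ⟨G, _, hGup, hGdir, hGD⟩ := hMA P' hccc' (range Dn)
    ((Cardinal.mk_range_le).trans hW) (by
      rintro _ ⟨α, rfl⟩ q
      obtain ⟨r, hr, ξ, hξ, hα⟩ := hp0 α q.1 q.2
      exact ⟨⟨r, hr.trans q.2⟩, ⟨ξ, hξ, hα⟩, hr⟩)
  let S : Set W := {ξ | ∃ q ∈ G, ξ ∈ OrderDual.ofDual q.1.1}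
  have hSunc : ¬ S.Countable := by
    intro hS
    obtain ⟨b, hb⟩ := exists_bound hc hu hS
    obtain ⟨q, hqG, ξ, hξ, hbξ⟩ := hGD (Dn b) (mem_range_self b)
    exact absurd (hb ξ ⟨q, hqG, hξ⟩) (lt_asymm hbξ)
  have hSOK : ∀ η ∈ S, ∀ ξ ∈ S, η < ξ → R η ξ := by
    rintro η ⟨q1, hq1, hη⟩ ξ ⟨q2, hq2, hξ⟩ hlt
    obtain ⟨r, _, hr1, hr2⟩ := hGdir q1 hq1 q2 hq2
    exact r.1.2 η (hmem _ _ hr1 η hη) ξ (hmem _ _ hr2 ξ hξ) hlt
  exact ⟨S, hSunc, hSOK⟩

end order

end Pool.Agent.Helper647.FU.J3
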