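import Pool.Agent.Helper647.FU.Defs

set_option autoImplicit false

open Set Cardinal Topology

namespace Pool.Agent.Helper647.FU.J4

/-- conditions -/
@[ext] structure QCd {B S ι : Type} (c : B → Set ι) (q : S → Set ι) where
  l : List (Finset ι)
  F : Finset B
  G : Finset S

/-- requirement on a new entry -/
def QGood {B S ι : Type} {c : B → Set ι} {q : S → Set ι} (p : QCd c q) (t : Finset ι) : Prop :=
  (∀ β ∈ p.F, ∃ σ ∈ t, σ ∈ c β) ∧ (∀ s ∈ p.G, ∀ σ ∈ t, σ ∉ q s)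

theorem q_prefix {α : Type} {l l' : List α} (h : l <+: l') {j : ℕ} (hj : j < l.length) :
    l'[j]? = l[j]? := by
  obtain ⟨s, hs⟩ := h
  rw [← hs, List.getElem?_append_left hj]

instance {B S ι : Type} {c : B → Set ι} {q : S → Set ι} : PartialOrder (QCd c q) where
  le r p := p.l <+: r.l ∧ p.F ⊆ r.F ∧ p.G ⊆ r.G ∧
    ∀ j, p.l.length ≤ j → ∀ t, r.l[j]? = some t → QGood p t
  le_refl p := ⟨List.prefix_refl _, Finset.Subset.refl _, Finset.Subset.refl _, by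
    intro j hj t ht
    rw [List.getElem?_eq_none hj] at ht
    exact absurd ht (by simp)⟩
  le_trans r p p0 h1 h2 := by
    refine ⟨h2.1.trans h1.1, h2.2.1.trans h1.2.1, h2.2.2.1.trans h1.2.2.1, ?_⟩
    intro j hj t ht
    by_cases hjp : j < p.l.length
    · rw [q_prefix h1.1 hjp] at ht
      exact h2.2.2.2 j hj t ht
    · have h3 := h1.2.2.2 j (not_lt.1 hjp) t ht
      exact ⟨fun β hβ => h3.1 β (h2.2.1 hβ), fun s hs => h3.2 s (h2.2.2.1 hs)⟩
  le_antisymm r p h1 h2 := by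
    apply QCd.ext
    · exact (List.IsPrefix.eq_of_length h2.1
        (le_antisymm (List.IsPrefix.length_le h2.1) (List.IsPrefix.length_le h1.1)))
    · exact Finset.Subset.antisymm h2.2.1 h1.2.1
    · exact Finset.Subset.antisymm h2.2.2.1 h1.2.2.1

theorem q_le_def {B S ι : Type} {c : B → Set ι} {q : S → Set ι} {r p : QCd c q} :
    r ≤ p ↔ (p.l <+: r.l ∧ p.F ⊆ r.F ∧ p.G ⊆ r.G ∧
      ∀ j, p.l.length ≤ j → ∀ t, r.l[j]? = some t → QGood p t) := Iff.rfl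

theorem q_same {B S ι : Type} {c : B → Set ι} {q : S → Set ι} (p : QCd c q) (F : Finset B)
    (G : Finset S) (hF : p.F ⊆ F) (hG : p.G ⊆ G) : (⟨p.l, F, G⟩ : QCd c q) ≤ p := by
  refine ⟨List.prefix_refl _, hF, hG, ?_⟩
  intro j hj t ht
  have ht' : p.l[j]? = some t := ht
  rw [List.getElem?_eq_none hj] at ht'
  exact absurd ht' (by simp)

theorem q_ccc {B S ι : Type} [Countable ι] (c : B → Set ι) (q : S → Set ι) : CCC (QCd c q) := by
  classical
  intro A hA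
  have hinj : Set.InjOn (fun p : QCd c q => p.l) A := by
    intro p hp p' hp' hl
    by_contra hne
    apply hA p hp p' hp' hne
    refine ⟨⟨p.l, p.F ∪ p'.F, p.G ∪ p'.G⟩, q_same p _ _ Finset.subset_union_left
      Finset.subset_union_left, ?_⟩
    have hl' : p.l = p'.l := hl
    rw [hl']
    exact q_same p' _ _ Finset.subset_union_right Finset.subset_union_right
  exact Set.MapsTo.countable_of_injOn (Set.mapsTo_univ _ _) hinj (Set.to_countable _)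

theorem q_step {B S ι : Type} {c : B → Set ι} {q : S → Set ι}
    (h : ∀ (β : B) (F : Finset S), ∃ σ ∈ c β, ∀ s ∈ F, σ ∉ q s) (p : QCd c q) :
    ∃ r ≤ p, r.l.length = p.l.length + 1 := by
  classical
  choose f hf1 hf2 using h
  refine ⟨⟨p.l ++ [p.F.image (fun β => f β p.G)], p.F, p.G⟩, ?_, by simp⟩
  refine ⟨List.prefix_append _ _, Finset.Subset.refl _, Finset.Subset.refl _, ?_⟩
  intro j hj t ht
  have ht' : (p.l ++ [p.F.image (fun β => f β p.G)])[j]? = some t := ht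
  rw [List.getElem?_append_right hj] at ht'
  have hj0 : j - p.l.length = 0 := by
    by_contra hne
    rw [List.getElem?_eq_none (by simp; omega)] at ht'
    exact absurd ht' (by simp)
  rw [hj0] at ht'
  have ht2 : p.F.image (fun β => f β p.G) = t := by simpa using ht'
  rw [← ht2]
  refine ⟨fun β hβ => ⟨f β p.G, Finset.mem_image_of_mem _ hβ, hf1 β p.G⟩, ?_⟩
  intro s hs σ hσ
  obtain ⟨β, _, rfl⟩ := Finset.mem_image.1 hσ
  exact hf2 β p.G s hs

theorem q_len {B S ι : Type} {c : B → Set ι} {q : S → Set ι}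
    (h : ∀ (β : B) (F : Finset S), ∃ σ ∈ c β, ∀ s ∈ F, σ ∉ q s) (n : ℕ) (p : QCd c q) :
    ∃ r ≤ p, n < r.l.length := by
  induction n with
  | zero =>
    obtain ⟨r, hr, hl⟩ := q_step h p
    exact ⟨r, hr, by omega⟩
  | succ n ih =>
    obtain ⟨r, hr, hl⟩ := ih
    obtain ⟨r', hr', hl'⟩ := q_step h r
    exact ⟨r', hr'.trans hr, by omega⟩

theorem lemQ (hMA : MA1) (B S : Type) (hB : #B ≤ ℵ₁) (hS : #S ≤ ℵ₁) (ι : Type) [Countable ι]
    (c : B → Set ι) (q : S → Set ι) (h : ∀ (β : B) (F : Finset S), ∃ σ ∈ c β, ∀ s ∈ F, σ ∉ q s) :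
    ∃ (t : ℕ → Finset ι) (n : B → ℕ) (m : S → ℕ),
      (∀ β j, n β ≤ j → ∃ σ ∈ t j, σ ∈ c β) ∧ (∀ s j, m s ≤ j → ∀ σ ∈ t j, σ ∉ q s) := by
  classical
  haveI : Nonempty (QCd c q) := ⟨⟨[], ∅, ∅⟩⟩
  let dn : ℕ ⊕ (B ⊕ S) → Set (QCd c q) := Sum.elim (fun n => {p | n < p.l.length})
    (Sum.elim (fun β => {p | β ∈ p.F}) (fun s => {p | s ∈ p.G}))
  have hcard : #(Set.range dn) ≤ ℵ₁ := by
    refine le_trans Cardinal.mk_range_le ?_
    rw [← Cardinal.add_def, ← Cardinal.add_def]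
    have h0 : ℵ₀ ≤ ℵ₁ := Cardinal.aleph0_le_aleph 1
    refine Cardinal.add_le_of_le h0 ?_ (Cardinal.add_le_of_le h0 hB hS)
    rw [Cardinal.mk_nat]
    exact h0
  obtain ⟨𝒢, ⟨_, _, hdir, hmeet⟩⟩ := hMA (QCd c q) (q_ccc c q) (Set.range dn) hcard (by
    rintro D ⟨x, rfl⟩ p
    rcases x with n | β | s
    · obtain ⟨r, hr, hl⟩ := q_len h n p
      exact ⟨r, hl, hr⟩
    · exact ⟨⟨p.l, insert β p.F, p.G⟩, Finset.mem_insert_self _ _,
        q_same p _ _ (Finset.subset_insert _ _) (Finset.Subset.refl _)⟩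
    · exact ⟨⟨p.l, p.F, insert s p.G⟩, Finset.mem_insert_self _ _,
        q_same p _ _ (Finset.Subset.refl _) (Finset.subset_insert _ _)⟩)
  have h1 : ∀ n : ℕ, ∃ p ∈ 𝒢, n < p.l.length := fun n => by
    obtain ⟨p, hp1, hp2⟩ := hmeet (dn (Sum.inl n)) ⟨_, rfl⟩
    exact ⟨p, hp1, hp2⟩
  have h2 : ∀ β : B, ∃ p ∈ 𝒢, β ∈ p.F := fun β => by
    obtain ⟨p, hp1, hp2⟩ := hmeet (dn (Sum.inr (Sum.inl β))) ⟨_, rfl⟩
    exact ⟨p, hp1, hp2⟩
  have h3 : ∀ s : S, ∃ p ∈ 𝒢, s ∈ p.G := fun s => by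
    obtain ⟨p, hp1, hp2⟩ := hmeet (dn (Sum.inr (Sum.inr s))) ⟨_, rfl⟩
    exact ⟨p, hp1, hp2⟩
  choose P hP1 hP2 using h1
  choose Q hQ1 hQ2 using h2
  choose R hR1 hR2 using h3
  have key : ∀ p ∈ 𝒢, ∀ j, p.l.length ≤ j → QGood p ((P j).l[j]'(hP2 j)) := by
    intro p hp j hj
    obtain ⟨r, _, hr1, hr2⟩ := hdir p hp (P j) (hP1 j)
    apply hr1.2.2.2 j hj
    rw [q_prefix hr2.1 (hP2 j)]
    exact List.getElem?_eq_getElem (hP2 j)
  refine ⟨fun j => (P j).l[j]'(hP2 j), fun β => (Q β).l.length, fun s => (R s).l.length, ?_, ?_⟩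
  · intro β j hj
    exact (key (Q β) (hQ1 β) j hj).1 β (hQ2 β)
  · intro s j hj
    exact (key (R s) (hR1 s) j hj).2 s (hR2 s)

end Pool.Agent.Helper647.FU.J4
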