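import Pool.Agent.Helper647.FU.Defs

set_option autoImplicit false

open Set Cardinal Topology

namespace Pool.Agent.Helper647.FU.J5

theorem net_small_aux1 {W : Type} {T : Type*} [TopologicalSpace T] [CompactSpace T]
    {X : Type*} [TopologicalSpace X] (e : T → X → ℝ) (he : ∀ x, Continuous fun t => e t x)
    (he' : ∀ t, Continuous (e t)) (x : W → X) (y : X) (hy : y ∈ closure (range x))
    (ε : ℝ) (hε : 0 < ε) : ∃ (E : Finset W) (m : ℕ), ∀ t t1,
      (∀ i ∈ E, |e t (x i) - e t1 (x i)| ≤ 1 / ((m : ℝ) + 1)) → |e t y - e t1 y| ≤ ε := by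
  classical
  have hcont : ∀ z, Continuous (fun p : T × T => |e p.1 z - e p.2 z|) := fun z =>
    (((he z).comp continuous_fst).sub ((he z).comp continuous_snd)).abs
  have hK : IsCompact {p : T × T | ε ≤ |e p.1 y - e p.2 y|} :=
    (isClosed_le continuous_const (hcont y)).isCompact
  have hU : ∀ q : W × ℕ, IsOpen {p : T × T | 1 / ((q.2 : ℝ) + 1) < |e p.1 (x q.1) - e p.2 (x q.1)|} :=
    fun q => isOpen_lt continuous_const (hcont _)
  obtain ⟨F, hF⟩ := hK.elim_finite_subcover _ hU (by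
    intro p hp
    rw [mem_iUnion]
    by_contra hcon
    push Not at hcon
    have h1 : ∀ i, e p.1 (x i) = e p.2 (x i) := by
      intro i
      by_contra hne
      have h2 : 0 < |e p.1 (x i) - e p.2 (x i)| := abs_pos.2 (sub_ne_zero.2 hne)
      obtain ⟨m, hm⟩ := exists_nat_one_div_lt h2
      exact hcon (i, m) hm
    have h3 : EqOn (e p.1) (e p.2) (closure (range x)) := by
      apply EqOn.closure _ (he' _) (he' _)
      rintro _ ⟨i, rfl⟩
      exact h1 i
    have h4 : e p.1 y = e p.2 y := h3 hy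
    have h5 : ε ≤ |e p.1 y - e p.2 y| := hp
    rw [h4, sub_self, abs_zero] at h5
    linarith)
  refine ⟨F.image Prod.fst, F.sup Prod.snd, ?_⟩
  intro t t1 h
  by_contra hcon
  push Not at hcon
  have h1 := hF (show (t, t1) ∈ {p : T × T | ε ≤ |e p.1 y - e p.2 y|} from hcon.le)
  rw [mem_iUnion₂] at h1
  obtain ⟨q, hq, hq2⟩ := h1
  have h2 : 1 / ((q.2 : ℝ) + 1) < |e t (x q.1) - e t1 (x q.1)| := hq2
  have h3 := h q.1 (Finset.mem_image_of_mem _ hq)
  have h4 : q.2 ≤ F.sup Prod.snd := Finset.le_sup (f := Prod.snd) hq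
  have h5 : (q.2 : ℝ) ≤ ((F.sup Prod.snd : ℕ) : ℝ) := by exact_mod_cast h4
  have h6 : 1 / (((F.sup Prod.snd : ℕ) : ℝ) + 1) ≤ 1 / ((q.2 : ℝ) + 1) := by
    apply one_div_le_one_div_of_le (by positivity)
    linarith
  linarith

theorem net_small_aux2 {W : Type} {T : Type*} [TopologicalSpace T] [CompactSpace T]
    {X : Type*} [TopologicalSpace X] (e : T → X → ℝ) (he : ∀ x, Continuous fun t => e t x)
    (a : ℕ → T) (ha : DenseRange a) (x : W → X)
    (E : Finset W) (δ : ℝ) (hδ : 0 < δ) : ∃ N : Finset ℕ, ∀ t, ∃ k ∈ N,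
      ∀ i ∈ E, |e t (x i) - e (a k) (x i)| ≤ δ := by
  classical
  have hopen : ∀ s : T, IsOpen {t : T | ∀ i ∈ E, |e t (x i) - e s (x i)| < δ} := by
    intro s
    have : {t : T | ∀ i ∈ E, |e t (x i) - e s (x i)| < δ} =
        ⋂ i ∈ E, {t : T | |e t (x i) - e s (x i)| < δ} := by
      ext t
      simp
    rw [this]
    apply isOpen_biInter_finset
    intro i _
    exact isOpen_lt ((he (x i)).sub continuous_const).abs continuous_const
  obtain ⟨N, hN⟩ := (isCompact_univ (X := T)).elim_finite_subcover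
    (fun k : ℕ => {t : T | ∀ i ∈ E, |e t (x i) - e (a k) (x i)| < δ}) (fun k => hopen (a k)) (by
    intro t _
    rw [mem_iUnion]
    obtain ⟨_, ht, k, rfl⟩ := ha.exists_mem_open (hopen t) ⟨t, fun i _ => by simpa using hδ⟩ |> fun ⟨k, hk⟩ => (⟨a k, hk, k, rfl⟩ : ∃ s, s ∈ {t' : T | ∀ i ∈ E, |e t' (x i) - e t (x i)| < δ} ∧ ∃ k, a k = s)
    refine ⟨k, fun i hi => ?_⟩
    rw [abs_sub_comm]
    exact ht i hi)
  refine ⟨N, fun t => ?_⟩
  have h1 := hN (mem_univ t)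
  rw [mem_iUnion₂] at h1
  obtain ⟨k, hk, hk2⟩ := h1
  exact ⟨k, hk, fun i hi => (hk2 i hi).le⟩

/-- small dense set of functions -/
theorem net_small {W : Type} (hW : #W ≤ ℵ₁) {T : Type*} [TopologicalSpace T] [CompactSpace T]
    {X : Type*} [TopologicalSpace X] (e : T → X → ℝ) (he : ∀ x, Continuous fun t => e t x)
    (he' : ∀ t, Continuous (e t)) (a : ℕ → T) (ha : DenseRange a) (x : W → X) (Y : Set X)
    (hY : Y ⊆ closure (range x)) (ε : ℝ) (hε : 0 < ε) :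
    ∃ (S : Type) (rep : S → X), #S ≤ ℵ₁ ∧ (∀ s, rep s ∈ Y) ∧
      ∀ y ∈ Y, ∃ s, ∀ k, |e (a k) y - e (a k) (rep s)| ≤ ε := by
  classical
  have hε3 : 0 < ε / 3 := by positivity
  have key : ∀ y : X, ∃ (E : Finset W) (m : ℕ) (N : Finset ℕ), y ∈ Y →
      (∀ t t1, (∀ i ∈ E, |e t (x i) - e t1 (x i)| ≤ 1 / ((m : ℝ) + 1)) →
        |e t y - e t1 y| ≤ ε / 3) ∧
      (∀ t, ∃ k ∈ N, ∀ i ∈ E, |e t (x i) - e (a k) (x i)| ≤ 1 / ((m : ℝ) + 1)) := by
    intro y
    by_cases hy : y ∈ Y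
    · obtain ⟨E, m, h1⟩ := net_small_aux1 e he he' x y (hY hy) (ε / 3) hε3
      obtain ⟨N, h2⟩ := net_small_aux2 e he a ha x E (1 / ((m : ℝ) + 1)) (by positivity)
      exact ⟨E, m, N, fun _ => ⟨h1, h2⟩⟩
    · exact ⟨∅, 0, ∅, fun h => absurd h hy⟩
  choose E m N hEN using key
  let dat : X → Finset W × ℕ × Finset (ℕ × ℤ) := fun y =>
    (E y, m y, (N y).image (fun k => (k, ⌊e (a k) y / (ε / 3)⌋)))
  refine ⟨{d : Finset W × ℕ × Finset (ℕ × ℤ) // ∃ y ∈ Y, dat y = d},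
    fun s => s.2.choose, ?_, fun s => s.2.choose_spec.1, ?_⟩
  · refine (mk_subtype_le _).trans ?_
    have hF : #(Finset W) ≤ ℵ₁ := by
      cases finite_or_infinite W with
      | inl h =>
        have : Finite (Finset W) := inferInstance
        exact (mk_le_aleph0).trans (aleph0_le_aleph 1)
      | inr h =>
        rw [mk_finset_of_infinite]
        exact hW
    have h1 : #(ℕ × Finset (ℕ × ℤ)) ≤ ℵ₁ := mk_le_aleph0.trans (aleph0_le_aleph 1)
    rw [mk_prod, lift_id, lift_id]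
    exact mul_le_of_le (aleph0_le_aleph 1) hF h1
  · intro y hy
    obtain ⟨s, hs⟩ : ∃ s : {d : Finset W × ℕ × Finset (ℕ × ℤ) // ∃ y ∈ Y, dat y = d},
      s = ⟨dat y, y, hy, rfl⟩ := ⟨_, rfl⟩
    refine ⟨s, ?_⟩
    obtain ⟨y1, hy1⟩ : ∃ y1, y1 = s.2.choose := ⟨_, rfl⟩
    have hY1 : y1 ∈ Y := by rw [hy1]; exact s.2.choose_spec.1
    have hd : dat y1 = dat y := by
      rw [hy1, s.2.choose_spec.2, hs]
    change ∀ k, |e (a k) y - e (a k) s.2.choose| ≤ ε
    rw [← hy1]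
    have hE : E y1 = E y := congrArg Prod.fst hd
    have hm : m y1 = m y := congrArg (fun d => d.2.1) hd
    have hG : (N y1).image (fun k => (k, ⌊e (a k) y1 / (ε / 3)⌋)) =
      (N y).image (fun k => (k, ⌊e (a k) y / (ε / 3)⌋)) := congrArg (fun d => d.2.2) hd
    obtain ⟨p1, p2⟩ := hEN y hy
    obtain ⟨r1, r2⟩ := hEN y1 hY1
    rw [hE, hm] at r1
    intro j
    obtain ⟨k, hk, hkE⟩ := p2 (a j)
    have q1 := p1 _ _ hkE
    have q2 := r1 _ _ hkE
    have q3 : |e (a k) y - e (a k) y1| ≤ ε / 3 := by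
      have h1 : (k, ⌊e (a k) y / (ε / 3)⌋) ∈
          (N y).image (fun k => (k, ⌊e (a k) y / (ε / 3)⌋)) := Finset.mem_image_of_mem _ hk
      rw [← hG, Finset.mem_image] at h1
      obtain ⟨k', _, hk'⟩ := h1
      have h2 : k' = k := congrArg Prod.fst hk'
      subst h2
      have h3 : ⌊e (a k') y1 / (ε / 3)⌋ = ⌊e (a k') y / (ε / 3)⌋ := congrArg Prod.snd hk'
      have h4 := Int.abs_sub_lt_one_of_floor_eq_floor h3
      rw [← sub_div, abs_div, abs_of_pos hε3, div_lt_one hε3] at h4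
      rw [abs_sub_comm]
      exact h4.le
    have q4 : e (a j) y - e (a j) y1 = (e (a j) y - e (a k) y) + (e (a k) y - e (a k) y1) -
      (e (a j) y1 - e (a k) y1) := by ring
    rw [q4]
    rw [abs_le] at q1 q2 q3 ⊢
    constructor <;> linarith [q1.1, q1.2, q2.1, q2.2, q3.1, q3.2]

end Pool.Agent.Helper647.FU.J5
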