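import Pool.Agent.Helper647.FU.Defs

set_option autoImplicit false

open Set Cardinal Topology

namespace Pool.Agent.Helper647.FU.J6

theorem final2_dense {T : Type*} [TopologicalSpace T] {X : Type*}
    (e : T → X → ℝ) (he : ∀ x, Continuous fun t => e t x) (a : ℕ → T) (ha : DenseRange a)
    (s t : T) (x y : X) (ε : ℝ) (hε : 0 < ε) (h1 : ε ≤ |e s x - e t x|)
    (h2 : |e s y - e t y| ≤ 3 / 4 * ε) : ∃ k, ε / 9 < |e (a k) y - e (a k) x| := by
  have hopen : IsOpen {τ : T | ε / 9 < |e τ y - e τ x|} :=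
    isOpen_lt continuous_const ((he y).sub (he x)).abs
  apply ha.exists_mem_open hopen
  by_contra hne
  rw [Set.not_nonempty_iff_eq_empty] at hne
  have hs : ¬ ε / 9 < |e s y - e s x| := by
    intro h
    have : s ∈ {τ : T | ε / 9 < |e τ y - e τ x|} := h
    rw [hne] at this
    exact this
  have ht : ¬ ε / 9 < |e t y - e t x| := by
    intro h
    have : t ∈ {τ : T | ε / 9 < |e τ y - e τ x|} := h
    rw [hne] at this
    exact this
  push Not at hs ht
  have k1 := abs_le.mp hs
  have k2 := abs_le.mp ht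
  have k3 := abs_le.mp h2
  rcases le_abs.mp h1 with h | h
  · linarith [k1.1, k1.2, k2.1, k2.2, k3.1, k3.2]
  · linarith [k1.1, k1.2, k2.1, k2.2, k3.1, k3.2]

theorem final2_disc {X : Type*} [TopologicalSpace X] [T1Space X] (D : Set X)
    (hD : ∀ y : X, ∃ U : Set X, IsOpen U ∧ y ∈ U ∧ (U ∩ D).Subsingleton) :
    IsClosed D ∧ DiscreteTopology D := by
  have key : ∀ y : X, ∃ U : Set X, IsOpen U ∧ y ∈ U ∧ U ∩ D ⊆ {y} := by
    intro y
    obtain ⟨U, hU, hyU, hs⟩ := hD y
    by_cases hne : ∃ d ∈ U ∩ D, d ≠ y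
    · obtain ⟨d, hd, hdy⟩ := hne
      refine ⟨U ∩ {d}ᶜ, hU.inter isOpen_compl_singleton, ⟨hyU, fun h => hdy h.symm⟩, ?_⟩
      rintro z ⟨⟨hz1, hz2⟩, hz3⟩
      exact absurd (hs ⟨hz1, hz3⟩ hd) hz2
    · push Not at hne
      exact ⟨U, hU, hyU, fun z hz => hne z hz⟩
  constructor
  · rw [← isOpen_compl_iff, isOpen_iff_forall_mem_open]
    intro y hy
    obtain ⟨U, hU, hyU, hs⟩ := key y
    refine ⟨U, ?_, hU, hyU⟩
    intro z hz hzD
    have : z = y := hs ⟨hz, hzD⟩
    exact hy (this ▸ hzD)
  · rw [discreteTopology_subtype_iff']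
    intro y hy
    obtain ⟨U, hU, hyU, hs⟩ := key y
    refine ⟨U, hU, Set.Subset.antisymm hs ?_⟩
    rintro z rfl
    exact ⟨hyU, hy⟩

theorem final2
    (lemQ : ∀ (B S : Type), #B ≤ ℵ₁ → #S ≤ ℵ₁ → ∀ (ι : Type) [Countable ι]
      (c : B → Set ι) (q : S → Set ι), (∀ (β : B) (F : Finset S), ∃ σ ∈ c β, ∀ s ∈ F, σ ∉ q s) →
      ∃ (t : ℕ → Finset ι) (n : B → ℕ) (m : S → ℕ),
        (∀ β j, n β ≤ j → ∃ σ ∈ t j, σ ∈ c β) ∧ (∀ s j, m s ≤ j → ∀ σ ∈ t j, σ ∉ q s))
    {W : Type} (hW : #W ≤ ℵ₁) (hu : ¬ Countable W)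
    {T : Type*} [TopologicalSpace T] {X : Type*} [TopologicalSpace X] [T1Space X]
    (hX : ∀ D : Set X, IsClosed D → DiscreteTopology D → D.Countable)
    (e : T → X → ℝ) (he : ∀ x, Continuous fun t => e t x) (he' : ∀ t, Continuous (e t))
    (a : ℕ → T) (ha : DenseRange a) (s t : W → T) (x : W → X) (ε : ℝ) (hε : 0 < ε)
    (net_small : ∀ (Y : Set X), Y ⊆ closure (range x) → ∀ ε' : ℝ, 0 < ε' →
      ∃ (S : Type) (rep : S → X), #S ≤ ℵ₁ ∧ (∀ s, rep s ∈ Y) ∧
      ∀ y ∈ Y, ∃ s, ∀ k, |e (a k) y - e (a k) (rep s)| ≤ ε')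
    (h1 : ∀ i, ε ≤ |e (s i) (x i) - e (t i) (x i)|)
    (h2 : ∀ i j, i ≠ j → |e (s i) (x j) - e (t i) (x j)| < ε / 2) : False := by
  obtain ⟨S, rep, hS, hrepY, hnet⟩ := net_small
    {y | y ∈ closure (range x) ∧ ∀ i, |e (s i) y - e (t i) y| ≤ 3 / 4 * ε} (fun y hy => hy.1)
    (ε / 100) (by positivity)
  obtain ⟨t', n, m, hn, hm⟩ := lemQ W S hW hS (List (ℕ × ℚ))
    (fun β => {σ | ∀ p ∈ σ, |e (a p.1) (x β) - (p.2 : ℝ)| < ε / 100})
    (fun r => {σ | ∀ p ∈ σ, |e (a p.1) (rep r) - (p.2 : ℝ)| ≤ ε / 10})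
    (by
      intro β F
      have hk : ∀ r : S, ∃ k, ε / 9 < |e (a k) (rep r) - e (a k) (x β)| := fun r =>
        final2_dense e he a ha (s β) (t β) (x β) (rep r) ε hε (h1 β) ((hrepY r).2 β)
      choose k hk using hk
      have hq : ∀ r : S, ∃ z : ℚ, |e (a (k r)) (x β) - (z : ℝ)| < ε / 100 := by
        intro r
        obtain ⟨z, hz1, hz2⟩ := exists_rat_btwn (show e (a (k r)) (x β) <
          e (a (k r)) (x β) + ε / 100 by linarith)
        refine ⟨z, ?_⟩
        rw [abs_lt]
        constructor <;> linarith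
      choose z hz using hq
      refine ⟨F.toList.map (fun r => (k r, z r)), ?_, ?_⟩
      · intro p hp
        rw [List.mem_map] at hp
        obtain ⟨r, _, rfl⟩ := hp
        exact hz r
      · intro r hr hmem
        have h3 := hmem (k r, z r) (List.mem_map.mpr ⟨r, Finset.mem_toList.mpr hr, rfl⟩)
        have h3' : |e (a (k r)) (rep r) - (z r : ℝ)| ≤ ε / 10 := h3
        have h4 := hk r
        have h5 := hz r
        have h6 : |e (a (k r)) (rep r) - e (a (k r)) (x β)| ≤
            |e (a (k r)) (rep r) - (z r : ℝ)| + |e (a (k r)) (x β) - (z r : ℝ)| := by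
          rw [abs_sub_comm (e (a (k r)) (x β)) (z r : ℝ)]
          exact abs_sub_le _ _ _
        linarith)
  -- choose an uncountable fibre of n
  obtain ⟨n0, hn0⟩ : ∃ n0 : ℕ, ¬ ({β | n β = n0} : Set W).Countable := by
    by_contra hall
    push Not at hall
    apply hu
    have hall' : ∀ n0 : ℕ, ({β | n β = n0} : Set W).Countable := fun n0 => by
      by_contra hc
      exact absurd (hall n0) hc
    have h3 : (⋃ n0 : ℕ, ({β | n β = n0} : Set W)).Countable := Set.countable_iUnion hall'
    rw [← Set.countable_univ_iff]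
    refine h3.mono ?_
    intro β _
    exact Set.mem_iUnion.mpr ⟨n β, rfl⟩
  have hinj : Function.Injective x := by
    intro i j hij
    by_contra hne
    have k1 := h1 i
    have k2 := h2 i j hne
    rw [← hij] at k2
    linarith
  obtain ⟨hDc, hDd⟩ := final2_disc (x '' {β | n β = n0}) (by
    intro y
    by_cases hy : y ∈ closure (range x)
    · by_cases hyY : ∀ i, |e (s i) y - e (t i) y| ≤ 3 / 4 * ε
      · obtain ⟨r, hr⟩ := hnet y ⟨hy, hyY⟩
        refine ⟨⋂ σ ∈ t' (max n0 (m r)), {y1 | ∀ p ∈ σ, |e (a p.1) y1 - e (a p.1) y| < ε / 100},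
          ?_, ?_, ?_⟩
        · apply isOpen_biInter_finset
          intro σ _
          have hfin : {y1 : X | ∀ p ∈ σ, |e (a p.1) y1 - e (a p.1) y| < ε / 100} =
              ⋂ p ∈ σ.toFinset, {y1 | |e (a p.1) y1 - e (a p.1) y| < ε / 100} := by
            ext y1
            simp
          rw [hfin]
          apply isOpen_biInter_finset
          intro p _
          exact isOpen_lt ((he' (a p.1)).sub continuous_const).abs continuous_const
        · simp only [Set.mem_iInter]
          intro σ _ p _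
          rw [sub_self, abs_zero]
          positivity
        · rintro z ⟨hz, β, hβ, rfl⟩
          exfalso
          obtain ⟨σ, hσt, hσc⟩ := hn β (max n0 (m r)) (by
            have : n β = n0 := hβ
            rw [this]
            exact le_max_left _ _)
          apply hm r (max n0 (m r)) (le_max_right _ _) σ hσt
          intro p hp
          have k1 := hr p.1
          simp only [Set.mem_iInter] at hz
          have k2 : |e (a p.1) (x β) - e (a p.1) y| < ε / 100 := hz σ hσt p hp
          have k3 : |e (a p.1) (x β) - (p.2 : ℝ)| < ε / 100 := hσc p hp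
          have k1' := abs_le.mp k1
          have k2' := abs_lt.mp k2
          have k3' := abs_lt.mp k3
          rw [abs_le]
          constructor
          · linarith [k1'.1, k1'.2, k2'.1, k2'.2, k3'.1, k3'.2]
          · linarith [k1'.1, k1'.2, k2'.1, k2'.2, k3'.1, k3'.2]
      · push Not at hyY
        obtain ⟨i, hi⟩ := hyY
        refine ⟨{z | ε / 2 < |e (s i) z - e (t i) z|},
          isOpen_lt continuous_const ((he' (s i)).sub (he' (t i))).abs, ?_, ?_⟩
        · show ε / 2 < |e (s i) y - e (t i) y|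
          linarith
        · have hone : ∀ z ∈ {z | ε / 2 < |e (s i) z - e (t i) z|} ∩ x '' {β | n β = n0},
              z = x i := by
            rintro z ⟨hz, β, _, rfl⟩
            by_contra hne
            have hβi : i ≠ β := by
              rintro rfl
              exact hne rfl
            have k1 := h2 i β hβi
            have k2 : ε / 2 < |e (s i) (x β) - e (t i) (x β)| := hz
            linarith
          intro z hz z' hz'
          rw [hone z hz, hone z' hz']
    · refine ⟨(closure (range x))ᶜ, isClosed_closure.isOpen_compl, hy, ?_⟩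
      rintro z ⟨hz, β, _, rfl⟩
      exact absurd (subset_closure (mem_range_self β)) hz)
  have h3 := hX _ hDc hDd
  exact hn0 (Set.countable_of_injective_of_countable_image hinj.injOn h3)

end Pool.Agent.Helper647.FU.J6
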