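import Pool.Agent.Helper647.FU.Sep

set_option autoImplicit false

open Set Cardinal Topology

namespace Pool.Agent.Helper647.FU

/-- Martin's axiom: every ccc poset has, for every family of fewer than `𝔠` dense sets, a filter
meeting all of them. -/
def MartinAxiom : Prop :=
  ∀ (P : Type) [PartialOrder P] [Nonempty P],
    (∀ A : Set P, (∀ a ∈ A, ∀ b ∈ A, a ≠ b → ¬ ∃ c : P, c ≤ a ∧ c ≤ b) → A.Countable) →
      ∀ (ι : Type) (D : ι → Set P), #ι < 𝔠 → (∀ i, ∀ p : P, ∃ q ∈ D i, q ≤ p) →
        ∃ G : Set P, G.Nonempty ∧ (∀ a ∈ G, ∀ b : P, a ≤ b → b ∈ G) ∧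
          (∀ a ∈ G, ∀ b ∈ G, ∃ c ∈ G, c ≤ a ∧ c ≤ b) ∧ ∀ i, (D i ∩ G).Nonempty

/-- every closed discrete subset is countable -/
def CountableExtent (X : Type) [TopologicalSpace X] : Prop :=
  ∀ D : Set X, IsClosed D → DiscreteTopology D → D.Countable

theorem MA1_of_MA (h : MartinAxiom) (hc : (ℵ₁ : Cardinal.{0}) < 𝔠) : MA1 := by
  intro P _ _ hP 𝒟 h𝒟 hd
  obtain ⟨G, h1, h2, h3, h4⟩ := h P hP 𝒟 (fun D => D.1) (lt_of_le_of_lt h𝒟 hc)
    (fun D p => hd D.1 D.2 p)
  refine ⟨G, h1, h2, h3, fun D hD => ?_⟩
  rw [inter_comm]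
  exact h4 ⟨D, hD⟩

theorem extent_of_lindelof (X : Type) [TopologicalSpace X] [LindelofSpace X] :
    CountableExtent X := by
  intro D hD hd
  have : LindelofSpace D := isLindelof_iff_lindelofSpace.1 hD.isLindelof
  exact Set.countable_coe_iff.1 (countable_of_Lindelof_of_discrete)

theorem metrizable (hMA : MA1) {X : Type} [TopologicalSpace X] [T1Space X]
    (hX : CountableExtent X)
    (K : Set (X → ℝ)) (hK : IsCompact K) (hKc : ∀ f ∈ K, Continuous f) (hT : CTight K)
    (hs : TopologicalSpace.SeparableSpace K) : TopologicalSpace.MetrizableSpace K := by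
  have : CompactSpace K := isCompact_iff_compactSpace.1 hK
  rcases isEmpty_or_nonempty K with hE | hE
  · have : DiscreteTopology K := inferInstance
    infer_instance
  · obtain ⟨a, ha⟩ := TopologicalSpace.exists_dense_seq K
    obtain ⟨C, hC, hsep⟩ := separating hMA hT hX (fun (f : K) x => f.1 x)
      (fun x => (continuous_apply x).comp continuous_subtype_val) (fun f => hKc f.1 f.2) a ha
    have : Countable C := hC.to_subtype
    let r : K → (C → ℝ) := fun f x => f.1 x.1
    have hr : Continuous r :=
      continuous_pi fun x => (continuous_apply x.1).comp continuous_subtype_val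
    have hri : Function.Injective r := by
      intro f g h
      apply Subtype.ext
      funext x
      exact hsep f g (fun y hy => congrFun h ⟨y, hy⟩) x
    have hemb : IsClosedEmbedding r := hr.isClosedEmbedding hri
    exact hemb.isEmbedding.metrizableSpace

/-- sequential spaces are countably tight -/
theorem ctight_of_sequential {T : Type*} [TopologicalSpace T] [SequentialSpace T] : CTight T := by
  intro A x hx
  have h1 : IsSeqClosed {z : T | ∃ C ⊆ A, C.Countable ∧ z ∈ closure C} := by
    intro u z hu hz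
    choose C hCA hCc hC using hu
    refine ⟨⋃ n, C n, iUnion_subset hCA, countable_iUnion hCc, ?_⟩
    refine isClosed_closure.mem_of_tendsto hz (Filter.Eventually.of_forall fun n => ?_)
    exact closure_mono (subset_iUnion C n) (hC n)
  have h2 : A ⊆ {z : T | ∃ C ⊆ A, C.Countable ∧ z ∈ closure C} := fun a ha =>
    ⟨{a}, by simpa using ha, countable_singleton a, subset_closure rfl⟩
  exact closure_minimal h2 h1.isClosed hx

theorem ma_frechet (hMA : MA1) {X : Type} [TopologicalSpace X] [T1Space X]
    (hX : CountableExtent X)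
    (K : Set (X → ℝ)) (hK : IsCompact K) (hKc : ∀ f ∈ K, Continuous f) :
    (CTight K ↔ SequentialSpace K) ∧ (CTight K ↔ FrechetUrysohnSpace K) := by
  refine ⟨⟨fun h => ?_, fun h => ctight_of_sequential⟩,
    ⟨fun h => frechet hMA hX K hK hKc h, fun h => ctight_of_sequential⟩⟩
  have := frechet hMA hX K hK hKc h
  infer_instance

theorem ma_metrizable (hMA : MA1) {X : Type} [TopologicalSpace X] [T1Space X]
    (hX : CountableExtent X)
    (K : Set (X → ℝ)) (hK : IsCompact K) (hKc : ∀ f ∈ K, Continuous f)
    (hs : TopologicalSpace.SeparableSpace K) : CTight K ↔ TopologicalSpace.MetrizableSpace K :=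
  ⟨fun h => metrizable hMA hX K hK hKc h hs, fun h => ctight_of_sequential⟩

theorem ext_or {Y : Type} [TopologicalSpace Y] (h : LindelofSpace Y ∨ CountableExtent Y) :
    CountableExtent Y := h.elim (fun _ => extent_of_lindelof Y) id

end Pool.Agent.Helper647.FU
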