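import Pool.Agent.Helper647.FU.J1
import Pool.Agent.Helper647.FU.J2
import Pool.Agent.Helper647.FU.J3
import Pool.Agent.Helper647.FU.J4
import Pool.Agent.Helper647.FU.J5
import Pool.Agent.Helper647.FU.J6
import Pool.Agent.Helper647.FU.J15

set_option autoImplicit false

open Set Cardinal Topology

namespace Pool.Agent.Helper647.FU

/-- the well order of type `ω₁` -/
abbrev W1 : Type := (ℵ₁ : Cardinal.{0}).ord.ToType

theorem W1_hc (a : W1) : (Iio a).Countable := by
  rw [← Cardinal.le_aleph0_iff_set_countable]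
  have h1 : #(Iio a) < ℵ₁ := Cardinal.mk_Iio_toType_ord_lt a
  have h2 : #(Iio a) < Order.succ ℵ₀ := by
    rw [Cardinal.succ_aleph0]; exact h1
  exact Order.lt_succ_iff.1 h2

theorem W1_hu : ¬ Countable W1 := by
  rw [← Cardinal.mk_le_aleph0_iff, Cardinal.mk_ord_toType, not_le]
  exact Cardinal.aleph0_lt_aleph_one

theorem W1_card : #W1 ≤ ℵ₁ := by
  rw [Cardinal.mk_ord_toType]

theorem separating (hMA : MA1) {T : Type*} [TopologicalSpace T] [CompactSpace T] [T2Space T]
    (hT : CTight T) {X : Type*} [TopologicalSpace X] [T1Space X]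
    (hX : ∀ D : Set X, IsClosed D → DiscreteTopology D → D.Countable)
    (e : T → X → ℝ) (he : ∀ x, Continuous fun t => e t x) (he' : ∀ t, Continuous (e t))
    (a : ℕ → T) (ha : DenseRange a) :
    ∃ C : Set X, C.Countable ∧ ∀ s t : T, (∀ x ∈ C, e s x = e t x) → ∀ x, e s x = e t x := by
  by_contra hcon
  push Not at hcon
  obtain ⟨p, hp⟩ := J3.rec_seq (W := W1) (T := X × T × T) W1_hc
    (fun B q => (∀ b ∈ B, e q.2.1 b.1 = e q.2.2 b.1) ∧ e q.2.1 q.1 ≠ e q.2.2 q.1) (by
      intro B hB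
      obtain ⟨s, t, hst, x, hx⟩ := hcon (Prod.fst '' B) (hB.image _)
      exact ⟨(x, s, t), fun b hb => hst b.1 (mem_image_of_mem _ hb), hx⟩)
  -- pigeonhole
  obtain ⟨n, hn⟩ : ∃ n : ℕ, ¬ {i : W1 | 1 / ((n : ℝ) + 1) ≤
      |e (p i).2.1 (p i).1 - e (p i).2.2 (p i).1|}.Countable := by
    by_contra hall
    push Not at hall
    apply W1_hu
    rw [← Set.countable_univ_iff]
    refine (countable_iUnion hall).mono ?_
    intro i _
    have h1 : 0 < |e (p i).2.1 (p i).1 - e (p i).2.2 (p i).1| := by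
      rw [abs_pos, sub_ne_zero]
      exact (hp i).2
    obtain ⟨n, hn⟩ := exists_nat_one_div_lt h1
    exact mem_iUnion.2 ⟨n, hn.le⟩
  set ε : ℝ := 1 / ((n : ℝ) + 1) with hε
  have hε0 : 0 < ε := by positivity
  let V : Set W1 := {i : W1 | ε ≤ |e (p i).2.1 (p i).1 - e (p i).2.2 (p i).1|}
  have hVc : ∀ a : V, (Iio a).Countable := by
    intro a
    have : (Subtype.val ⁻¹' (Iio (a : W1)) : Set V).Countable :=
      (W1_hc a).preimage Subtype.val_injective
    exact this.mono fun b hb => hb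
  have hVu : ¬ Countable V := fun h => hn (Set.countable_coe_iff.1 h)
  have hVW : #V ≤ ℵ₁ := (Cardinal.mk_set_le V).trans W1_card
  have hl : ∀ i j : V, j < i → e (p i).2.1 (p j).1 = e (p i).2.2 (p j).1 := fun i j hj =>
    (hp i).1 (p j) (mem_image_of_mem _ hj)
  obtain ⟨S, hSu, hS⟩ := J3.homog (W := V) hMA hVc hVu hVW
    (fun i j => |e (p i).2.1 (p j).1 - e (p i).2.2 (p j).1| < ε / 2) (by
      intro m q hq
      exact J2.blocks2 (W := V) hVc hVu e he (fun i => (p i).2.1) (fun i => (p i).2.2)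
        (fun i => (p i).1) hl (ε / 2) (by positivity) (m + 1)
        (J1.CTight.pi (J1.CTight.prod hT hT) (m + 1)) q hq)
  have hSu' : ¬ Countable S := fun h => hSu (Set.countable_coe_iff.1 h)
  have hSW : #S ≤ ℵ₁ := (Cardinal.mk_set_le S).trans hVW
  refine J6.final2 (J4.lemQ hMA) (W := S) hSW hSu' hX e he he' a ha
    (fun i => (p i).2.1) (fun i => (p i).2.2) (fun i => (p i).1) ε hε0 ?_ ?_ ?_
  · intro Y hY ε' hε'
    exact J5.net_small hSW e he he' a ha _ Y hY ε' hε'
  · intro i
    exact i.1.2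
  · intro i j hij
    rcases lt_or_gt_of_ne hij with h | h
    · exact hS i i.2 j j.2 h
    · have := hl i.1 j.1 h
      simp only [this, sub_self, abs_zero]
      positivity

theorem frechet (hMA : MA1) {X : Type*} [TopologicalSpace X] [T1Space X]
    (hX : ∀ D : Set X, IsClosed D → DiscreteTopology D → D.Countable)
    (K : Set (X → ℝ)) (hK : IsCompact K) (hKc : ∀ f ∈ K, Continuous f) (hT : CTight K) :
    FrechetUrysohnSpace K :=
  J15.frechet (fun hT' e he he' a ha => separating hMA hT' hX e he he' a ha) K hK hKc hT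

end Pool.Agent.Helper647.FU
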